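import Pool.Agent.Helper88.CN.Inv

set_option autoImplicit false
set_option linter.unusedSectionVars false

open Module NumberField NumberField.InfinitePlace NumberField.Units

namespace Pool.Agent.Helper88.CN

/-- Dirichlet's class number formula for `p` congruent to 7 modulo 8. -/
theorem class_number_formula {K : Type*} [Field K] [NumberField K] {p : ℕ} [hp : Fact p.Prime]
    (hK : finrank ℚ K = 2) {s : K} (hs : s ^ 2 = -(p : K)) (hp8 : p % 8 = 7) :
    (NumberField.classNumber K : ℝ) * p = -AA p := by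
  obtain ⟨q, hq⟩ : ∃ q : ℤ, 4 * q - 1 = p := ⟨((p : ℤ) + 1) / 4, by omega⟩
  obtain ⟨w, hw, _⟩ := exists_QB hK hs hp.out hq
  have h2 : Module.finrank ℤ (𝓞 K) = 2 := by rw [RingOfIntegers.rank, hK]
  have h1 := residue_eq hq hp8 hw h2
  rw [dedekindZeta_residue_def, nrReal hs hp.out.pos, nrComplex hK hs hp.out.pos,
    regulator_one hK hs hp.out.pos, torsion_two hK hs hp.out (by omega), hw.discr,
    L1_eq p (by omega)] at h1
  have hd : (1 - 4 * q : ℤ) = -(p : ℤ) := by linarith
  have hp0 : (0 : ℝ) < p := by exact_mod_cast hp.out.pos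
  have hsq : Real.sqrt p ≠ 0 := (Real.sqrt_pos.mpr hp0).ne'
  rw [hd] at h1
  have habs : |((-(p : ℤ) : ℤ) : ℝ)| = p := by
    push_cast
    rw [abs_neg, abs_of_pos hp0]
  rw [habs] at h1
  field_simp at h1
  push_cast at h1
  linarith

end Pool.Agent.Helper88.CN
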