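import Mathlib

set_option autoImplicit false

namespace Pool.Agent.Helper88.CN

/-- `S_p(x) = ∏_{k=1}^{(p-1)/2} (x - e^{2 π i k^2 / p})`. -/
noncomputable def Sp (p : ℕ) (x : ℂ) : ℂ :=
  ∏ k ∈ Finset.Icc 1 ((p - 1) / 2),
    (x - Complex.exp (2 * Real.pi * Complex.I * (k : ℂ) ^ 2 / p))

/-- `N_p`: the number of integers `1 ≤ k < p / 12` with Legendre symbol `(k / p) = 1`. -/
noncomputable def Np (p : ℕ) [Fact p.Prime] : ℕ :=
  ((Finset.range p).filter (fun k : ℕ => 1 ≤ k ∧ 12 * k < p ∧ legendreSym p (k : ℤ) = 1)).card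

/-- `T_p(ε)`, with `h` the class number:
`(-1)^(⌊h/2⌋ + N_p) * e^{2 π i ε (p-1) / 48} * S_p(e^{2 π i ε / 12})`. -/
noncomputable def Tp (p : ℕ) [Fact p.Prime] (h : ℕ) (ε : ℤ) : ℂ :=
  (-1) ^ (h / 2 + Np p) * Complex.exp (2 * Real.pi * Complex.I * ε * ((p : ℂ) - 1) / 48) *
    Sp p (Complex.exp (2 * Real.pi * Complex.I * ε / 12))

end Pool.Agent.Helper88.CN
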