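import Pool.Agent.Helper88.CN.CNF

set_option autoImplicit false
set_option linter.unusedSectionVars false

open Module NumberField Ideal

namespace Pool.Agent.Helper88.CN

lemma sq_two_ne {X Y : ℤ} (h : X ^ 2 = 2 * Y ^ 2) : X = 0 ∧ Y = 0 := by
  by_cases hY : Y = 0
  · subst hY
    simp only [ne_eq, OfNat.ofNat_ne_zero, not_false_eq_true, zero_pow, mul_zero,
      pow_eq_zero_iff] at h
    exact ⟨h, rfl⟩
  · exfalso
    have hYR : (Y : ℝ) ≠ 0 := by exact_mod_cast hY
    have h1 : ((X : ℝ) / Y) ^ 2 = 2 := by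
      rw [div_pow, div_eq_iff (pow_ne_zero 2 hYR)]
      exact_mod_cast h
    have h2 : Real.sqrt 2 = |(X : ℝ) / Y| := by
      rw [← h1, Real.sqrt_sq_eq_abs]
    apply irrational_sqrt_two
    rw [h2]
    refine ⟨|(X : ℚ) / Y|, ?_⟩
    push_cast
    rfl

/-- The representation by the form. -/
lemma exists_rep {p : ℕ} [hp : Fact p.Prime] (hp8 : p % 8 = 1) :
    ∃ a b : ℤ, (p : ℤ) = 2 * a ^ 2 - b ^ 2 := by
  have h2 : IsSquare (2 : ZMod p) := by
    rw [ZMod.exists_sq_eq_two_iff (by omega)]; left; exact hp8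
  obtain ⟨c, hc⟩ := h2
  obtain ⟨r, hr1, hr2⟩ : ∃ r : ℕ, r * r ≤ p ∧ p < (r + 1) * (r + 1) :=
    ⟨Nat.sqrt p, Nat.sqrt_le p, Nat.lt_succ_sqrt p⟩
  have hr3 : r * r < p := by
    rcases lt_or_eq_of_le hr1 with h | h
    · exact h
    · exact absurd ⟨r, h.symm⟩ hp.out.prime.irreducible.not_isSquare
  have hcard : Fintype.card (ZMod p) < Fintype.card (Fin (r + 1) × Fin (r + 1)) := by
    rw [ZMod.card, Fintype.card_prod, Fintype.card_fin]
    exact hr2
  obtain ⟨⟨x1, y1⟩, ⟨x2, y2⟩, hne, heq⟩ := Fintype.exists_ne_map_eq_of_card_lt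
    (fun z : Fin (r + 1) × Fin (r + 1) => ((z.1 : ℕ) : ZMod p) - c * ((z.2 : ℕ) : ZMod p)) hcard
  simp only at heq
  set X : ℤ := ((x1 : ℕ) : ℤ) - ((x2 : ℕ) : ℤ) with hX
  set Y : ℤ := ((y1 : ℕ) : ℤ) - ((y2 : ℕ) : ℤ) with hY
  have hXc : (X : ZMod p) = c * (Y : ZMod p) := by
    rw [hX, hY]
    push_cast
    linear_combination heq
  have hdvd : (p : ℤ) ∣ X ^ 2 - 2 * Y ^ 2 := by
    rw [← ZMod.intCast_zmod_eq_zero_iff_dvd]
    push_cast
    rw [hXc]
    linear_combination (-(Y : ZMod p) ^ 2) * hc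
  have hx1 := x1.2
  have hx2 := x2.2
  have hy1 := y1.2
  have hy2 := y2.2
  have hXb : X ^ 2 ≤ (r : ℤ) ^ 2 := by
    apply sq_le_sq'
    · omega
    · omega
  have hYb : Y ^ 2 ≤ (r : ℤ) ^ 2 := by
    apply sq_le_sq'
    · omega
    · omega
  have hr4 : (r : ℤ) ^ 2 < p := by
    rw [pow_two]
    exact_mod_cast hr3
  obtain ⟨k, hk⟩ := hdvd
  have hp0 : (0 : ℤ) < p := by exact_mod_cast hp.out.pos
  have hk1 : k < 1 := by
    by_contra h
    push Not at h
    nlinarith [sq_nonneg Y]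
  have hk2 : -2 < k := by
    by_contra h
    push Not at h
    nlinarith [sq_nonneg X]
  have hk3 : k = 0 ∨ k = -1 := by omega
  rcases hk3 with h | h
  · exfalso
    rw [h, mul_zero] at hk
    obtain ⟨e1, e2⟩ := sq_two_ne (X := X) (Y := Y) (by linarith)
    apply hne
    have e3 : x1 = x2 := Fin.ext (by omega)
    have e4 : y1 = y2 := Fin.ext (by omega)
    rw [e3, e4]
  · exact ⟨Y, X, by rw [h] at hk; linarith⟩

section
variable {K : Type*} [Field K] [NumberField K] {p : ℕ} [hp : Fact p.Prime]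
  (hK : finrank ℚ K = 2) {s : K} (hs : s ^ 2 = -(p : K))

lemma ideal_A {R : Type*} [CommRing R] {t : R} {a b : ℤ} (ht : t ^ 2 = -((2 * a ^ 2 - b ^ 2 : ℤ) : R))
    (hcop : IsCoprime a (2 * b)) :
    span {(a : R), (b : R) + t} * span {(a : R), (b : R) + t} = span {((a ^ 2 : ℤ) : R), (b : R) + t} := by
  rw [span_pair_mul_span_pair]
  obtain ⟨u, v, huv⟩ := hcop
  have huv' : (u : R) * a + v * (2 * b) = 1 := by exact_mod_cast congrArg (fun z : ℤ => (z : R)) huv
  apply le_antisymm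
  · rw [span_le]
    rintro x (rfl | rfl | rfl | rfl)
    · rw [SetLike.mem_coe, mem_span_pair]
      exact ⟨1, 0, by push_cast; ring⟩
    · rw [SetLike.mem_coe, mem_span_pair]
      exact ⟨0, a, by ring⟩
    · rw [SetLike.mem_coe, mem_span_pair]
      exact ⟨0, a, by ring⟩
    · rw [SetLike.mem_coe, mem_span_pair]
      exact ⟨0, b + t, by ring⟩
  · rw [span_le]
    have m1 : (a : R) * a ∈ span {(a : R) * a, a * (b + t), (b + t) * a, (b + t) * (b + t)} :=
      subset_span (by simp)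
    have m2 : (a : R) * (b + t) ∈ span {(a : R) * a, a * (b + t), (b + t) * a, (b + t) * (b + t)} :=
      subset_span (by simp)
    have m3 : ((b : R) + t) * (b + t) ∈
        span {(a : R) * a, a * (b + t), (b + t) * a, (b + t) * (b + t)} :=
      subset_span (by simp)
    rintro x (rfl | rfl)
    · rw [SetLike.mem_coe]
      push_cast
      rw [pow_two]
      exact m1
    · rw [SetLike.mem_coe]
      have h1 : (b : R) + t = u * (a * (b + t)) + (v * ((b + t) * (b + t)) + (2 * v) * (a * a)) := by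
        push_cast at ht
        linear_combination (-((b : R) + t)) * huv' + (-(v : R)) * ht
      have h2 := add_mem (mul_mem_left _ (u : R) m2)
        (add_mem (mul_mem_left _ (v : R) m3) (mul_mem_left _ (2 * v : R) m1))
      rw [← h1] at h2
      exact h2

lemma ideal_B {R : Type*} [CommRing R] {t : R} {a b c e : ℤ}
    (ht : t ^ 2 = -((2 * a ^ 2 - b ^ 2 : ℤ) : R)) (hb : b = 2 * c + 1) (ha : a ^ 2 = 2 * e + 1) :
    span {(2 : R), 1 + t} * span {((a ^ 2 : ℤ) : R), (b : R) + t} = span {(b : R) + t} := by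
  rw [span_pair_mul_span_pair]
  have hb' : (b : R) = 2 * c + 1 := by exact_mod_cast congrArg (fun z : ℤ => (z : R)) hb
  have ha' : (a : R) ^ 2 = 2 * e + 1 := by exact_mod_cast congrArg (fun z : ℤ => (z : R)) ha
  push_cast at ht ⊢
  apply le_antisymm
  · rw [span_le]
    rintro x (rfl | rfl | rfl | rfl)
    · rw [SetLike.mem_coe, mem_span_singleton']
      exact ⟨b - t, by linear_combination -ht⟩
    · rw [SetLike.mem_coe, mem_span_singleton']
      exact ⟨2, by ring⟩
    · rw [SetLike.mem_coe, mem_span_singleton']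
      refine ⟨a ^ 2 - c * (b - t), ?_⟩
      linear_combination (c : R) * ht + (a : R) ^ 2 * hb'
    · rw [SetLike.mem_coe, mem_span_singleton']
      exact ⟨1 + t, by ring⟩
  · rw [span_le]
    rintro x rfl
    rw [SetLike.mem_coe]
    have m1 : (2 : R) * (a : R) ^ 2 ∈ span {2 * (a : R) ^ 2, 2 * (b + t), (1 + t) * (a : R) ^ 2,
      (1 + t) * (b + t)} := subset_span (by simp)
    have m2 : (2 : R) * (b + t) ∈ span {2 * (a : R) ^ 2, 2 * (b + t), (1 + t) * (a : R) ^ 2,
      (1 + t) * (b + t)} := subset_span (by simp)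
    have m3 : (1 + t) * (a : R) ^ 2 ∈ span {2 * (a : R) ^ 2, 2 * (b + t), (1 + t) * (a : R) ^ 2,
      (1 + t) * (b + t)} := subset_span (by simp)
    have h1 : (b : R) + t = (1 + t) * (a : R) ^ 2 + (c * (2 * (a : R) ^ 2) +
        (-e) * (2 * (b + t))) := by
      linear_combination (-(b : R) - t) * ha' + (a : R) ^ 2 * hb'
    have h2 := add_mem m3 (add_mem (mul_mem_left _ (c : R) m1) (mul_mem_left _ (-(e : R)) m2))
    rw [← h1] at h2
    exact h2

lemma ideal_C {R : Type*} [CommRing R] {t : R} {n k : ℤ} (ht : t ^ 2 = -(n : R))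
    (hn : n = 4 * k + 1) :
    span {(2 : R), 1 + t} * span {(2 : R), 1 + t} = span {(2 : R)} := by
  rw [span_pair_mul_span_pair]
  have hn' : (n : R) = 4 * k + 1 := by exact_mod_cast congrArg (fun z : ℤ => (z : R)) hn
  apply le_antisymm
  · rw [span_le]
    rintro x (rfl | rfl | rfl | rfl)
    · rw [SetLike.mem_coe, mem_span_singleton']
      exact ⟨2, by ring⟩
    · rw [SetLike.mem_coe, mem_span_singleton']
      exact ⟨1 + t, by ring⟩
    · rw [SetLike.mem_coe, mem_span_singleton']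
      exact ⟨1 + t, by ring⟩
    · rw [SetLike.mem_coe, mem_span_singleton']
      exact ⟨t - 2 * k, by linear_combination hn' - ht⟩
  · rw [span_le]
    rintro x rfl
    rw [SetLike.mem_coe]
    have m1 : (2 : R) * 2 ∈ span {(2 : R) * 2, 2 * (1 + t), (1 + t) * 2,
      (1 + t) * (1 + t)} := subset_span (by simp)
    have m2 : (2 : R) * (1 + t) ∈ span {(2 : R) * 2, 2 * (1 + t), (1 + t) * 2,
      (1 + t) * (1 + t)} := subset_span (by simp)
    have m3 : (1 + t) * (1 + t) ∈ span {(2 : R) * 2, 2 * (1 + t), (1 + t) * 2,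
      (1 + t) * (1 + t)} := subset_span (by simp)
    have h1 : (2 : R) = 2 * (1 + t) + ((-1) * ((1 + t) * (1 + t)) + (-k) * (2 * 2)) := by
      linear_combination ht - hn'
    have h2 := add_mem m2 (add_mem (mul_mem_left _ (-1 : R) m3) (mul_mem_left _ (-(k : R)) m1))
    rw [← h1] at h2
    exact h2

include hK hs in
lemma not_principal_two (hp8 : p % 8 = 1) (h2 : Module.finrank ℤ (𝓞 K) = 2) {I : Ideal (𝓞 K)}
    (hI : I * I = span {(2 : 𝓞 K)}) : ¬ I.IsPrincipal := by
  rintro ⟨g, hg⟩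
  have h3 : absNorm I = 2 := by
    have h4 := congrArg absNorm hI
    have h5 : absNorm (span {(2 : 𝓞 K)}) = 2 ^ 2 := by
      have := absNorm_span_natCast (S := 𝓞 K) 2
      rw [h2] at this
      exact_mod_cast this
    rw [map_mul, h5, ← pow_two] at h4
    exact Nat.pow_left_injective two_ne_zero h4
  have h4 : absNorm (span {g}) = 2 := by
    rw [← h3]; congr 1; exact hg.symm
  rw [absNorm_span_singleton] at h4
  obtain ⟨A, B, N, e1, e2, e3⟩ := int_coord hK hs hp.out (RingOfIntegers.isIntegral_coe g)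
  have h5 : Algebra.norm ℤ g = N := by
    have h6 := Algebra.coe_norm_int g
    rw [e3] at h6
    exact_mod_cast h6
  rw [h5] at h4
  have hpge : (17 : ℤ) ≤ p := by
    have : 17 ≤ p := by
      by_contra hlt
      push Not at hlt
      have h9 : p = 1 ∨ p = 9 := by omega
      rcases h9 with h | h
      · exact hp.out.one_lt.ne' h
      · have := hp.out
        rw [h] at this
        norm_num at this
    exact_mod_cast this
  have hN : N = 2 := by
    have h6 : 0 ≤ N := by
      have : (0 : ℤ) ≤ p := by positivity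
      nlinarith [sq_nonneg A, mul_nonneg this (sq_nonneg B)]
    omega
  rw [hN] at e2
  have hB : B = 0 := by
    by_contra hB
    have h7 : 1 ≤ B ^ 2 := by
      have := sq_pos_of_ne_zero hB
      omega
    nlinarith [sq_nonneg A]
  rw [hB] at e2
  have h8 : A ^ 2 = 8 := by linarith
  have h9 : A ≤ 2 := by nlinarith
  have h10 : -2 ≤ A := by nlinarith
  interval_cases A <;> omega

include hK hs in
/-- The class number is divisible by four for `p` congruent to 1 modulo 8. -/
theorem four_dvd (hp8 : p % 8 = 1) : 4 ∣ NumberField.classNumber K := by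
  classical
  have h2 : Module.finrank ℤ (𝓞 K) = 2 := by rw [RingOfIntegers.rank, hK]
  obtain ⟨a, b, hab⟩ := exists_rep hp8
  have hpZ : (p : ℤ) % 8 = 1 := by exact_mod_cast congrArg (fun z : ℕ => (z : ℤ)) hp8
  -- parity
  have hbodd : b % 2 = 1 := by
    rcases Int.emod_two_eq_zero_or_one b with h | h
    · exfalso
      have h3 : (b ^ 2) % 2 = 0 := by rw [pow_two, Int.mul_emod, h]; rfl
      omega
    · exact h
  obtain ⟨c, hc⟩ : ∃ c, b = 2 * c + 1 := ⟨b / 2, by omega⟩
  have hasq : ∃ e, a ^ 2 = 2 * e + 1 := by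
    have h3 : 2 * a ^ 2 = p + b ^ 2 := by linarith
    have h4 : b ^ 2 = 4 * (c * (c + 1)) + 1 := by rw [hc]; ring
    obtain ⟨d, hd⟩ : ∃ d, c * (c + 1) = 2 * d := by
      have := Int.even_mul_succ_self c
      obtain ⟨d, hd⟩ := this
      exact ⟨d, by rw [hd]; ring⟩
    refine ⟨(p - 1) / 4 + 2 * d, ?_⟩
    omega
  obtain ⟨e, he⟩ := hasq
  have hcop : IsCoprime a (2 * b) := by
    apply IsCoprime.mul_right
    · refine ⟨a, -e, ?_⟩
      linear_combination he
    · rw [Int.isCoprime_iff_gcd_eq_one]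
      by_contra hne
      obtain ⟨l, hl, hld⟩ := Nat.exists_prime_and_dvd hne
      have d1 : (l : ℤ) ∣ a := (Int.natCast_dvd_natCast.mpr hld).trans (Int.gcd_dvd_left ..)
      have d2 : (l : ℤ) ∣ b := (Int.natCast_dvd_natCast.mpr hld).trans (Int.gcd_dvd_right ..)
      obtain ⟨a', ha'⟩ := d1
      obtain ⟨b', hb'⟩ := d2
      have h3 : (p : ℤ) = (l * l) * (2 * a' ^ 2 - b' ^ 2) := by rw [hab, ha', hb']; ring
      have h4 : ((l * l : ℕ) : ℤ) ∣ (p : ℤ) := ⟨_, by push_cast; exact h3⟩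
      have h5 : l * l ∣ p := by exact_mod_cast h4
      have h6 := (Nat.prime_dvd_prime_iff_eq hl hp.out).mp ((Nat.dvd_mul_right l l).trans h5)
      rw [h6] at h5
      have h7 := Nat.le_of_dvd hp.out.pos h5
      have h8 := hp.out.one_lt
      nlinarith
  obtain ⟨t, ht⟩ : ∃ t : 𝓞 K, algebraMap (𝓞 K) K t = s := by
    have hint : IsIntegral ℤ s := by
      apply IsIntegral.of_pow two_pos
      rw [hs]
      have h3 : (-(p : K)) = algebraMap ℤ K (-(p : ℤ)) := by simp
      rw [h3]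
      exact isIntegral_algebraMap
    exact ⟨⟨s, hint⟩, rfl⟩
  have htsq : t ^ 2 = -((p : ℤ) : 𝓞 K) := by
    have h3 : algebraMap (𝓞 K) K (t ^ 2) = algebraMap (𝓞 K) K (-((p : ℤ) : 𝓞 K)) := by
      rw [map_pow, map_neg, map_intCast, ht, hs]
      push_cast
      rfl
    exact RingOfIntegers.ext h3
  have htsq' : t ^ 2 = -((2 * a ^ 2 - b ^ 2 : ℤ) : 𝓞 K) := by rw [htsq, hab]
  have hA := ideal_A htsq' hcop
  have hB := ideal_B htsq' hc he
  have hC := ideal_C (n := (p : ℤ)) (k := ((p : ℤ) - 1) / 4) htsq (by omega)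
  set I2 := span {(2 : 𝓞 K), 1 + t} with hI2
  set J := span {(a : 𝓞 K), (b : 𝓞 K) + t} with hJ
  have hI20 : I2 ∈ nonZeroDivisors (Ideal (𝓞 K)) := by
    rw [mem_nonZeroDivisors_iff_ne_zero]
    intro h0
    rw [h0, zero_mul] at hC
    have h3 : (2 : 𝓞 K) = 0 := by
      have := hC.symm
      rw [Ideal.zero_eq_bot, span_singleton_eq_bot] at this
      exact this
    exact two_ne_zero h3
  have hbt : (b : 𝓞 K) + t ≠ 0 := by
    intro h0
    have h3 : t = -(b : 𝓞 K) := by linear_combination h0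
    rw [h3] at htsq
    have h4 : ((b ^ 2 + p : ℤ) : 𝓞 K) = 0 := by push_cast; push_cast at htsq; linear_combination htsq
    have h5 : b ^ 2 + (p : ℤ) = 0 := by exact_mod_cast h4
    have h6 : (0 : ℤ) < p := by exact_mod_cast hp.out.pos
    nlinarith [sq_nonneg b]
  have hJ0 : J ∈ nonZeroDivisors (Ideal (𝓞 K)) := by
    rw [mem_nonZeroDivisors_iff_ne_zero]
    intro h0
    rw [← hA, h0, zero_mul, mul_zero] at hB
    have := hB.symm
    rw [Ideal.zero_eq_bot, span_singleton_eq_bot] at this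
    exact hbt this
  set x := ClassGroup.mk0 ⟨J, hJ0⟩ with hx
  set y := ClassGroup.mk0 ⟨I2, hI20⟩ with hy
  have hy1 : y ≠ 1 := by
    rw [hy, Ne, ClassGroup.mk0_eq_one_iff]
    exact not_principal_two hK hs hp8 h2 hC
  have hy2 : y * y = 1 := by
    rw [hy, ← map_mul, Submonoid.mk_mul_mk, ClassGroup.mk0_eq_one_iff, hC]
    exact ⟨2, rfl⟩
  have hxy : y * (x * x) = 1 := by
    rw [hy, hx, ← map_mul, ← map_mul, Submonoid.mk_mul_mk, Submonoid.mk_mul_mk,
      ClassGroup.mk0_eq_one_iff]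
    show Submodule.IsPrincipal (I2 * (J * J))
    rw [hA, hB]
    exact ⟨(b : 𝓞 K) + t, rfl⟩
  have hx2 : x ^ 2 ^ 1 ≠ 1 := by
    intro h
    rw [pow_one, pow_two] at h
    rw [h, mul_one] at hxy
    exact hy1 hxy
  have hx4 : x ^ 2 ^ (1 + 1) = 1 := by
    have h3 : (y * (x * x)) * (y * (x * x)) = (y * y) * x ^ 4 := by
      have : x ^ 4 = (x * x) * (x * x) := by rw [← pow_two, ← pow_two, ← pow_mul]
      rw [this]
      exact mul_mul_mul_comm _ _ _ _
    rw [hxy, hy2, one_mul, one_mul] at h3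
    rw [show 2 ^ (1 + 1) = 4 by norm_num]
    exact h3.symm
  have h3 : orderOf x = 2 ^ (1 + 1) := orderOf_eq_prime_pow hx2 hx4
  have h4 : orderOf x ∣ Fintype.card (ClassGroup (𝓞 K)) := orderOf_dvd_card
  rw [h3] at h4
  exact h4

end

end Pool.Agent.Helper88.CN
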