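import Mathlib

set_option autoImplicit false

open Polynomial Finset Complex

namespace Pool.Agent.Helper88.CN

variable (p : ℕ) [hp : Fact p.Prime]

/-- The complex quadratic character modulo `p`. -/
noncomputable def qc : MulChar (ZMod p) ℂ :=
  (quadraticChar (ZMod p)).ringHomComp (Int.castRingHom ℂ)

lemma qc_apply (x : ZMod p) : qc p x = ((quadraticChar (ZMod p) x : ℤ) : ℂ) := rfl

/-- The quadratic Gauss sum. -/
noncomputable def GS : ℂ := gaussSum (qc p) (ZMod.stdAddChar (N := p))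

/-- The primitive root of unity. -/
noncomputable def zt : ℂ := exp (2 * Real.pi * I / p)

lemma zt_prim : IsPrimitiveRoot (zt p) p := Complex.isPrimitiveRoot_exp p hp.out.ne_zero

lemma stdAddChar_eq (x : ZMod p) : (ZMod.stdAddChar x : ℂ) = zt p ^ x.val := by
  have h1 := ZMod.stdAddChar_coe (N := p) (x.val : ℤ)
  rw [Int.cast_natCast, ZMod.natCast_zmod_val] at h1
  rw [h1, zt, ← Complex.exp_nat_mul]
  congr 1
  push_cast
  ring

lemma qc_quadratic : (qc p).IsQuadratic :=
  (quadraticChar_isQuadratic (ZMod p)).comp _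

lemma qc_ne_one (hp2 : p ≠ 2) : qc p ≠ 1 := by
  have h1 : quadraticChar (ZMod p) ≠ 1 :=
    quadraticChar_ne_one (by rw [ZMod.ringChar_zmod_n]; exact hp2)
  intro h
  apply h1
  ext x
  have h2 := congrFun (congrArg DFunLike.coe h) (x : ZMod p)
  rw [qc_apply] at h2
  have h3 : ((1 : MulChar (ZMod p) ℂ) (x : ZMod p)) = 1 := MulChar.one_apply_coe x
  rw [h3] at h2
  rw [MulChar.one_apply_coe]
  exact_mod_cast h2

lemma GS_sq (hp4 : p % 4 = 3) : GS p ^ 2 = -(p : ℂ) := by
  have hp2 : p ≠ 2 := by omega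
  unfold GS
  rw [gaussSum_sq (qc_ne_one p hp2) (qc_quadratic p) (ZMod.isPrimitive_stdAddChar p)]
  have h1 : quadraticChar (ZMod p) (-1) = -1 := by
    rw [quadraticChar_neg_one (by rw [ZMod.ringChar_zmod_n]; exact hp2), ZMod.card]
    exact ZMod.χ₄_nat_three_mod_four hp4
  rw [qc_apply, h1, ZMod.card]
  push_cast
  ring

/-- The polynomial of the Gauss sum. -/
noncomputable def gP : ℤ[X] := ∑ x : ZMod p, C (quadraticChar (ZMod p) x) * X ^ x.val

lemma gP_eval : aeval (zt p) (gP p) = GS p := by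
  unfold gP GS gaussSum
  rw [map_sum]
  apply Finset.sum_congr rfl
  intro x _
  rw [map_mul, aeval_C, map_pow, aeval_X, stdAddChar_eq, qc_apply]
  simp

/-- Exponents. -/
def ee (j : ℕ) : ℕ := j * ((p + 1) / 2)
/-- Negated exponents. -/
def ff (j : ℕ) : ℕ := ee p j * (p - 1)

/-- The product polynomial. -/
noncomputable def PP : ℤ[X] := ∏ j ∈ Finset.Icc 1 ((p - 1) / 2), (X ^ ee p j - X ^ ff p j)

lemma factor_eval (hp4 : p % 4 = 3) (j : ℕ) :
    zt p ^ ee p j - zt p ^ ff p j =
      (-1) ^ j * (I * (2 * Real.sin (Real.pi * j / p) : ℝ)) := by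
  have hp0 : (p : ℂ) ≠ 0 := by exact_mod_cast hp.out.ne_zero
  have hprim := zt_prim p
  have h1 : zt p ^ ee p j = (-1) ^ j * exp (I * (Real.pi * j / p)) := by
    rw [zt, ← Complex.exp_nat_mul, ee]
    obtain ⟨t, ht⟩ : ∃ t, p = 4 * t + 3 := ⟨p / 4, by omega⟩
    have h2 : (p + 1) / 2 = 2 * t + 2 := by omega
    have h3 : (-1 : ℂ) ^ j = exp (j * (Real.pi * I)) := by
      rw [Complex.exp_nat_mul, Complex.exp_pi_mul_I]
    rw [h3, ← Complex.exp_add, h2]
    congr 1
    have h4 : (p : ℂ) = 4 * t + 3 := by rw [ht]; push_cast; ring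
    field_simp
    push_cast
    rw [h4]
    ring
  have h2 : zt p ^ ff p j * zt p ^ ee p j = 1 := by
    rw [← pow_add]
    have h3 : ff p j + ee p j = ee p j * p := by
      unfold ff
      have h4 : 1 ≤ p := hp.out.one_lt.le
      obtain ⟨q, hq⟩ : ∃ q, p = q + 1 := ⟨p - 1, by omega⟩
      rw [hq, Nat.add_sub_cancel]
      ring
    rw [h3, mul_comm, pow_mul, hprim.pow_eq_one, one_pow]
  have h3 : zt p ^ ff p j = (-1) ^ j * exp (-(I * (Real.pi * j / p))) := by
    have h4 : (zt p ^ ee p j) ≠ 0 := by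
      apply pow_ne_zero
      rw [zt]; exact Complex.exp_ne_zero _
    apply mul_right_cancel₀ h4
    rw [h2, h1]
    have h5 : ((-1 : ℂ) ^ j) * ((-1) ^ j) = 1 := by
      rw [← mul_pow]; norm_num
    have h6 : exp (-(I * (Real.pi * j / p))) * exp (I * (Real.pi * j / p)) = 1 := by
      rw [← Complex.exp_add]; simp
    calc (1 : ℂ) = ((-1 : ℂ) ^ j * ((-1) ^ j)) *
          (exp (-(I * (Real.pi * j / p))) * exp (I * (Real.pi * j / p))) := by
          rw [h5, h6, one_mul]
      _ = _ := by ring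
  rw [h1, h3, ← mul_sub]
  congr 1
  push_cast
  rw [Complex.sin]
  have e1 : I * ((Real.pi : ℂ) * j / p) = (Real.pi : ℂ) * j / p * I := by ring
  have e2 : -(I * ((Real.pi : ℂ) * j / p)) = -((Real.pi : ℂ) * j / p) * I := by ring
  rw [e2, e1]
  have hI : I * I = -1 := Complex.I_mul_I
  linear_combination (-(exp (-((Real.pi : ℂ) * j / p) * I)) + exp ((Real.pi : ℂ) * j / p * I)) *
    hI

/-- The real product of sines. -/
noncomputable def RR : ℝ := ∏ j ∈ Finset.Icc 1 ((p - 1) / 2), (2 * Real.sin (Real.pi * j / p))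

lemma RR_pos : 0 < RR p := by
  unfold RR
  apply Finset.prod_pos
  intro j hj
  rw [Finset.mem_Icc] at hj
  have hp1 := hp.out.one_lt
  have hp0 : (0 : ℝ) < p := by exact_mod_cast hp.out.pos
  have hjp : (j : ℝ) < p := by
    have : j < p := by omega
    exact_mod_cast this
  have hj0 : (0 : ℝ) < j := by exact_mod_cast hj.1
  have hpi := Real.pi_pos
  apply mul_pos two_pos
  apply Real.sin_pos_of_pos_of_lt_pi
  · positivity
  · rw [div_lt_iff₀ hp0]
    nlinarith

lemma PP_eval (hp4 : p % 4 = 3) : aeval (zt p) (PP p) = -(I * (RR p : ℝ)) := by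
  unfold PP RR
  rw [map_prod]
  have h1 : ∀ j ∈ Finset.Icc 1 ((p - 1) / 2), aeval (zt p) ((X : ℤ[X]) ^ ee p j - X ^ ff p j) =
      (-1) ^ j * (I * (2 * Real.sin (Real.pi * j / p) : ℝ)) := by
    intro j _
    rw [map_sub, map_pow, map_pow, aeval_X]
    exact factor_eval p hp4 j
  rw [Finset.prod_congr rfl h1, Finset.prod_mul_distrib, Finset.prod_mul_distrib,
    Finset.prod_const, Nat.card_Icc, Finset.prod_pow_eq_pow_sum]
  obtain ⟨t, ht⟩ : ∃ t, p = 4 * t + 3 := ⟨p / 4, by omega⟩
  have hm : (p - 1) / 2 = 2 * t + 1 := by omega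
  rw [hm]
  have h2 : ∑ j ∈ Finset.Icc 1 (2 * t + 1), j = (2 * t + 1) * (t + 1) := by
    have h3 := Finset.sum_range_id_mul_two (2 * t + 2)
    have h4 : ∑ j ∈ Finset.Icc 1 (2 * t + 1), j = ∑ j ∈ Finset.range (2 * t + 2), j := by
      rw [Finset.range_eq_Ico, ← Finset.sum_Ioo_add_eq_sum_Ico (by omega)]
      simp only [add_zero]
      rfl
    rw [h4]
    have h5 : (2 * t + 2) * (2 * t + 2 - 1) = ((2 * t + 1) * (t + 1)) * 2 := by
      have : 2 * t + 2 - 1 = 2 * t + 1 := by omega
      rw [this]; ring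
    omega
  rw [h2, pow_mul]
  have h6 : ((-1 : ℂ) ^ (2 * t + 1)) = -1 := by
    rw [pow_succ, pow_mul]; norm_num
  have h7 : I ^ (2 * t + 1 + 1 - 1) = (-1) ^ t * I := by
    rw [Nat.add_sub_cancel, pow_succ, pow_mul, Complex.I_sq]
  rw [h6, h7]
  have h8 : ((-1 : ℂ) ^ (t + 1)) * ((-1) ^ t) = -1 := by
    rw [← pow_add]
    have : t + 1 + t = 2 * t + 1 := by ring
    rw [this, h6]
  push_cast
  linear_combination (I * ∏ x ∈ Finset.Icc 1 (2 * t + 1), (2 * sin (Real.pi * x / p))) * h8

/-- The product of all `2 sin`. -/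
lemma RR_sq (hp4 : p % 4 = 3) : RR p ^ 2 = p := by
  obtain ⟨t, ht⟩ : ∃ t, p = 4 * t + 3 := ⟨p / 4, by omega⟩
  have hm : (p - 1) / 2 = 2 * t + 1 := by omega
  have hp0 : (0 : ℝ) < p := by exact_mod_cast hp.out.pos
  have hpC : (p : ℂ) ≠ 0 := by exact_mod_cast hp.out.ne_zero
  -- the full product
  have hfull : ∏ j ∈ Finset.range (4 * t + 2), (2 * Real.sin (Real.pi * (j + 1 : ℕ) / p)) = p := by
    have hprim : IsPrimitiveRoot (zt p) ((4 * t + 2) + 1) := by
      have := zt_prim p
      have h1 : (4 * t + 2) + 1 = p := by omega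
      rw [h1]; exact this
    have h1 := hprim.prod_one_sub_pow_eq_order
    have h2 : ‖∏ k ∈ Finset.range (4 * t + 2), (1 - zt p ^ (k + 1))‖ = p := by
      rw [h1]
      have : ((4 * t + 2 : ℕ) : ℂ) + 1 = ((p : ℕ) : ℂ) := by rw [ht]; push_cast; ring
      rw [this, Complex.norm_natCast]
    rw [norm_prod] at h2
    refine Eq.trans ?_ h2
    apply Finset.prod_congr rfl
    intro j hj
    rw [Finset.mem_range] at hj
    have hj1 : ((j + 1 : ℕ) : ℝ) < p := by
      have : j + 1 < p := by omega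
      exact_mod_cast this
    have hsin : 0 ≤ Real.sin (Real.pi * (j + 1 : ℕ) / p) := by
      apply Real.sin_nonneg_of_nonneg_of_le_pi
      · have := Real.pi_pos
        positivity
      · rw [div_le_iff₀ hp0]
        have := Real.pi_pos
        nlinarith
    have h3 : zt p ^ (j + 1) = exp ((2 * Real.pi * (j + 1 : ℕ) / p : ℝ) * I) := by
      rw [zt, ← Complex.exp_nat_mul]
      congr 1
      push_cast
      ring
    rw [h3, ← norm_neg, neg_sub]
    have h4 : ‖exp ((2 * Real.pi * (j + 1 : ℕ) / p : ℝ) * I) - 1‖ =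
        ‖2 * Real.sin ((2 * Real.pi * (j + 1 : ℕ) / p) / 2)‖ := by
      have := Complex.norm_exp_I_mul_ofReal_sub_one (2 * Real.pi * (j + 1 : ℕ) / p)
      rw [mul_comm] at this
      exact this
    rw [h4]
    have h5 : (2 * Real.pi * ((j + 1 : ℕ) : ℝ) / p) / 2 = Real.pi * (j + 1 : ℕ) / p := by ring
    rw [h5, Real.norm_eq_abs, abs_of_nonneg (by positivity)]
  -- split the product
  have hsplit : ∏ j ∈ Finset.range (4 * t + 2), (2 * Real.sin (Real.pi * (j + 1 : ℕ) / p)) =
      (∏ j ∈ Finset.range (2 * t + 1), (2 * Real.sin (Real.pi * (j + 1 : ℕ) / p))) *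
      ∏ j ∈ Finset.range (2 * t + 1), (2 * Real.sin (Real.pi * (2 * t + 1 + j + 1 : ℕ) / p)) := by
    have : 4 * t + 2 = (2 * t + 1) + (2 * t + 1) := by ring
    rw [this, Finset.prod_range_add]
  have hrefl : ∏ j ∈ Finset.range (2 * t + 1),
      (2 * Real.sin (Real.pi * (2 * t + 1 + j + 1 : ℕ) / p)) =
      ∏ j ∈ Finset.range (2 * t + 1), (2 * Real.sin (Real.pi * (j + 1 : ℕ) / p)) := by
    rw [← Finset.prod_range_reflect]
    apply Finset.prod_congr rfl
    intro j hj
    rw [Finset.mem_range] at hj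
    have h1 : ((2 * t + 1 + (2 * t + 1 - 1 - j) + 1 : ℕ) : ℝ) = p - (j + 1 : ℕ) := by
      have : (2 * t + 1 + (2 * t + 1 - 1 - j) + 1) + (j + 1) = p := by omega
      rw [← this]
      push_cast
      ring
    rw [h1]
    have h2 : Real.pi * ((p : ℝ) - ((j + 1 : ℕ) : ℝ)) / p =
        Real.pi - Real.pi * (j + 1 : ℕ) / p := by field_simp
    rw [h2, Real.sin_pi_sub]
  have hRR : RR p = ∏ j ∈ Finset.range (2 * t + 1), (2 * Real.sin (Real.pi * (j + 1 : ℕ) / p)) := by
    unfold RR
    have hset : Finset.Icc 1 (2 * t + 1) = Finset.Ico 1 (2 * t + 2) := by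
      ext j
      simp only [Finset.mem_Icc, Finset.mem_Ico]
      omega
    rw [hm, hset, Finset.prod_Ico_eq_prod_range]
    have h1 : 2 * t + 2 - 1 = 2 * t + 1 := by omega
    rw [h1]
    apply Finset.prod_congr rfl
    intro j _
    rw [add_comm 1 j]
  rw [hsplit, hrefl, ← hRR] at hfull
  rw [sq, hfull]

lemma PP_sq (hp4 : p % 4 = 3) : (aeval (zt p) (PP p)) ^ 2 = -(p : ℂ) := by
  rw [PP_eval p hp4, neg_sq, mul_pow, Complex.I_sq]
  have h1 : ((RR p : ℝ) : ℂ) ^ 2 = p := by
    rw [← Complex.ofReal_pow, RR_sq p hp4]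
    simp
  rw [h1]; ring

/-- Coefficient extraction after the shift. -/
lemma coeff_prod_shift {R : Type*} [CommRing R] {κ : Type*} [DecidableEq κ] (s : Finset κ)
    (q : κ → R[X]) (hq : ∀ k ∈ s, (q k).coeff 0 = 0) :
    (∏ k ∈ s, q k).coeff s.card = ∏ k ∈ s, (q k).coeff 1 ∧ X ^ s.card ∣ ∏ k ∈ s, q k := by
  induction s using Finset.induction_on with
  | empty => simp
  | insert a s ha ih =>
    obtain ⟨ih1, ih2⟩ := ih (fun k hk => hq k (Finset.mem_insert_of_mem hk))
    have ha0 := hq a (Finset.mem_insert_self _ _)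
    have hXa : X ∣ q a := X_dvd_iff.mpr ha0
    obtain ⟨u, hu⟩ := hXa
    obtain ⟨v, hv⟩ := ih2
    rw [Finset.prod_insert ha, Finset.card_insert_of_notMem ha, Finset.prod_insert ha]
    constructor
    · rw [← ih1, hv, hu]
      have h1 : X * u * (X ^ s.card * v) = X ^ (s.card + 1) * (u * v) := by ring
      rw [h1]
      have h2 : (X ^ (s.card + 1) * (u * v)).coeff (s.card + 1) = (u * v).coeff 0 := by
        have := coeff_X_pow_mul (u * v) (s.card + 1) 0
        rwa [zero_add] at this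
      have h3 : (X ^ s.card * v).coeff s.card = v.coeff 0 := by
        have := coeff_X_pow_mul v s.card 0
        rwa [zero_add] at this
      have h4 : (X * u).coeff 1 = u.coeff 0 := coeff_X_mul u 0
      rw [h2, h3, h4, mul_coeff_zero]
    · rw [hu, hv, pow_succ]
      exact ⟨u * v, by ring⟩

/-- The reduction of the product polynomial. -/
lemma PP_coeff (hp4 : p % 4 = 3) :
    (((PP p).map (Int.castRingHom (ZMod p))).comp (X + 1)).coeff ((p - 1) / 2) =
      ((((p - 1) / 2).factorial : ℕ) : ZMod p) := by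
  classical
  have h1 : ((PP p).map (Int.castRingHom (ZMod p))).comp (X + 1) =
      ∏ j ∈ Finset.Icc 1 ((p - 1) / 2), ((X + 1 : (ZMod p)[X]) ^ ee p j - (X + 1) ^ ff p j) := by
    unfold PP
    rw [Polynomial.map_prod, Polynomial.prod_comp]
    apply Finset.prod_congr rfl
    intro j _
    simp
  rw [h1]
  have hcard : (Finset.Icc 1 ((p - 1) / 2)).card = (p - 1) / 2 := by simp
  have h2 := coeff_prod_shift (Finset.Icc 1 ((p - 1) / 2))
    (fun j => ((X + 1 : (ZMod p)[X]) ^ ee p j - (X + 1) ^ ff p j)) (by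
      intro j _
      simp only [coeff_sub, coeff_X_add_one_pow, Nat.choose_zero_right]
      simp)
  rw [hcard] at h2
  rw [h2.1]
  have h3 : ∀ j ∈ Finset.Icc 1 ((p - 1) / 2),
      ((X + 1 : (ZMod p)[X]) ^ ee p j - (X + 1) ^ ff p j).coeff 1 = ((j : ℕ) : ZMod p) := by
    intro j _
    simp only [coeff_sub, coeff_X_add_one_pow, Nat.choose_one_right]
    unfold ff ee
    have hpz : (p : ZMod p) = 0 := ZMod.natCast_self p
    have h5 : ((p - 1 : ℕ) : ZMod p) = -1 := by
      rw [Nat.cast_sub hp.out.one_lt.le, hpz]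
      simp
    have h6 : (2 : ZMod p) * (((p + 1) / 2 : ℕ) : ZMod p) = 1 := by
      have h7 : 2 * ((p + 1) / 2) = p + 1 := by omega
      have h8 : ((2 * ((p + 1) / 2) : ℕ) : ZMod p) = ((p + 1 : ℕ) : ZMod p) := by rw [h7]
      push_cast at h8
      rw [hpz] at h8
      rw [zero_add] at h8
      exact h8
    push_cast
    rw [h5]
    linear_combination (j : ZMod p) * h6
  rw [Finset.prod_congr rfl h3, ← Nat.cast_prod]
  have hset : Finset.Icc 1 ((p - 1) / 2) = Finset.Ico 1 ((p - 1) / 2 + 1) := by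
    ext j
    simp only [Finset.mem_Icc, Finset.mem_Ico]
    omega
  rw [hset, Finset.prod_Ico_id_eq_factorial]

/-- Power sums against polynomials of degree `p - 1`. -/
lemma sum_eval (f : (ZMod p)[X]) (hf : f.natDegree ≤ p - 1) (hp2 : 2 < p) :
    ∑ x : ZMod p, f.eval x = -f.coeff (p - 1) := by
  have h1 : ∀ x : ZMod p, f.eval x = ∑ i ∈ Finset.range ((p - 1) + 1), f.coeff i * x ^ i := by
    intro x
    rw [eval_eq_sum_range' (lt_of_le_of_lt hf (by omega : p - 1 < (p - 1) + 1))]
  simp_rw [h1]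
  rw [Finset.sum_comm]
  simp_rw [← Finset.mul_sum]
  rw [Finset.sum_range_succ]
  have h2 : ∑ i ∈ Finset.range (p - 1), f.coeff i * ∑ x : ZMod p, x ^ i = 0 := by
    apply Finset.sum_eq_zero
    intro i hi
    rw [Finset.mem_range] at hi
    rw [FiniteField.sum_pow_lt_card_sub_one _ i (by rw [ZMod.card]; exact hi), mul_zero]
  rw [h2, zero_add]
  have h3 : ∑ x : ZMod p, x ^ (p - 1) = -1 := by
    have h4 : ∀ x : ZMod p, x ^ (p - 1) = if x = 0 then 0 else 1 := by
      intro x
      split_ifs with h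
      · rw [h, zero_pow (by omega)]
      · exact ZMod.pow_card_sub_one_eq_one h
    simp_rw [h4]
    rw [Finset.sum_ite, Finset.sum_const_zero, zero_add, Finset.sum_const, nsmul_eq_mul, mul_one]
    have h5 : (Finset.univ.filter (fun x : ZMod p => ¬ x = 0)).card = p - 1 := by
      have : (Finset.univ.filter (fun x : ZMod p => ¬ x = 0)) = Finset.univ.erase 0 := by
        ext x; simp
      rw [this, Finset.card_erase_of_mem (Finset.mem_univ _), Finset.card_univ, ZMod.card]
    rw [h5, Nat.cast_sub hp.out.one_lt.le, ZMod.natCast_self]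
    simp
  rw [h3]; ring

/-- The reduction of the Gauss sum polynomial. -/
lemma gP_coeff (hp4 : p % 4 = 3) :
    ((((p - 1) / 2).factorial : ℕ) : ZMod p) *
      (((gP p).map (Int.castRingHom (ZMod p))).comp (X + 1)).coeff ((p - 1) / 2) = -1 := by
  have hp2 : p ≠ 2 := by omega
  have hp3 := hp.out.one_lt
  set m := (p - 1) / 2 with hm
  have h1 : (((gP p).map (Int.castRingHom (ZMod p))).comp (X + 1)).coeff m =
      ∑ x : ZMod p, x ^ m * ((x.val.choose m : ℕ) : ZMod p) := by
    unfold gP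
    rw [Polynomial.map_sum, Polynomial.sum_comp, finsetSum_coeff]
    apply Finset.sum_congr rfl
    intro x _
    rw [Polynomial.map_mul, Polynomial.map_C, Polynomial.map_pow, Polynomial.map_X,
      mul_comp, C_comp, X_pow_comp, coeff_C_mul, coeff_X_add_one_pow]
    congr 1
    have h2 := quadraticChar_eq_pow_of_char_ne_two' (F := ZMod p)
      (by rw [ZMod.ringChar_zmod_n]; exact hp2) x
    rw [ZMod.card] at h2
    have h3 : p / 2 = m := by omega
    rw [h3] at h2
    exact h2
  rw [h1, Finset.mul_sum]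
  have h2 : ∀ x : ZMod p, ((m.factorial : ℕ) : ZMod p) * (x ^ m * ((x.val.choose m : ℕ) : ZMod p)) =
      (X ^ m * descPochhammer (ZMod p) m).eval x := by
    intro x
    rw [eval_mul, eval_pow, eval_X]
    have h3 : (descPochhammer (ZMod p) m).eval x = ((x.val.descFactorial m : ℕ) : ZMod p) := by
      have := descPochhammer_eval_eq_descFactorial (ZMod p) x.val m
      rwa [ZMod.natCast_zmod_val] at this
    rw [h3, Nat.descFactorial_eq_factorial_mul_choose]
    push_cast
    ring
  simp_rw [h2]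
  have hmon : (X ^ m * descPochhammer (ZMod p) m : (ZMod p)[X]).Monic :=
    (monic_X_pow m).mul (monic_descPochhammer (ZMod p) m)
  have hdeg : (X ^ m * descPochhammer (ZMod p) m : (ZMod p)[X]).natDegree = p - 1 := by
    rw [(monic_X_pow m).natDegree_mul (monic_descPochhammer (ZMod p) m), natDegree_X_pow,
      descPochhammer_natDegree]
    omega
  rw [sum_eval p _ hdeg.le (by omega)]
  have h4 : (X ^ m * descPochhammer (ZMod p) m : (ZMod p)[X]).coeff (p - 1) = 1 := by
    have := hmon.coeff_natDegree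
    rwa [hdeg] at this
  rw [h4]

/-- Wilson for the half factorial. -/
lemma half_factorial_sq (hp4 : p % 4 = 3) :
    ((((p - 1) / 2).factorial : ℕ) : ZMod p) ^ 2 = 1 := by
  have hp3 := hp.out.one_lt
  set m := (p - 1) / 2 with hm
  have h1 := ZMod.wilsons_lemma p
  have h2 : p - 1 = m + m := by omega
  rw [h2, ← Nat.factorial_mul_ascFactorial, Nat.cast_mul] at h1
  have h3 : (((m + 1).ascFactorial m : ℕ) : ZMod p) = (-1) ^ m * ((m.factorial : ℕ) : ZMod p) := by
    rw [Nat.ascFactorial_eq_prod_range, ← Nat.descFactorial_self, Nat.descFactorial_eq_prod_range]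
    push_cast
    rw [← Finset.card_range m]
    rw [← Finset.prod_const, Finset.card_range, ← Finset.prod_mul_distrib]
    apply Finset.prod_congr rfl
    intro i hi
    rw [Finset.mem_range] at hi
    have h4 : ((m + 1 + i : ℕ) : ZMod p) + ((m - i : ℕ) : ZMod p) = 0 := by
      rw [← Nat.cast_add]
      have : m + 1 + i + (m - i) = p := by omega
      rw [this, ZMod.natCast_self]
    push_cast at h4
    linear_combination h4
  rw [h3] at h1
  have hodd : Odd m := by
    rw [Nat.odd_iff]; omega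
  rw [hodd.neg_one_pow] at h1
  linear_combination -h1

/-- The sign of the quadratic Gauss sum. -/
theorem GS_eq (hp4 : p % 4 = 3) : GS p = I * (Real.sqrt p : ℝ) := by
  have hp1 := hp.out.one_lt
  have hsq : GS p ^ 2 = (aeval (zt p) (PP p)) ^ 2 := by rw [GS_sq p hp4, PP_sq p hp4]
  have hRR : RR p = Real.sqrt p := by
    rw [← RR_sq p hp4, Real.sqrt_sq (RR_pos p).le]
  rcases sq_eq_sq_iff_eq_or_eq_neg.mp hsq with h | h
  · exfalso
    -- the polynomial difference vanishes at the root of unity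
    have h1 : aeval (zt p) (gP p - PP p) = 0 := by
      rw [map_sub, gP_eval, h, sub_self]
    have hdvd : cyclotomic p ℤ ∣ gP p - PP p := by
      rw [cyclotomic_eq_minpoly (zt_prim p) hp.out.pos]
      exact minpoly.isIntegrallyClosed_dvd ((zt_prim p).isIntegral hp.out.pos) h1
    obtain ⟨q, hq⟩ := hdvd
    have h2 : (gP p - PP p).map (Int.castRingHom (ZMod p)) =
        (X - 1) ^ (p - 1) * q.map (Int.castRingHom (ZMod p)) := by
      rw [hq, Polynomial.map_mul, map_cyclotomic]
      congr 1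
      have hnd : ¬ p ∣ 1 := by
        intro hd
        exact hp.out.one_lt.ne' (Nat.dvd_one.mp hd)
      have h3 := cyclotomic_mul_prime_eq_pow_of_not_dvd (ZMod p) (p := p) (n := 1) hnd
      rw [one_mul, cyclotomic_one] at h3
      exact h3
    have h3 : ((gP p - PP p).map (Int.castRingHom (ZMod p))).comp (X + 1) =
        X ^ (p - 1) * (q.map (Int.castRingHom (ZMod p))).comp (X + 1) := by
      rw [h2, mul_comp, pow_comp, sub_comp, X_comp, one_comp]
      congr 2
      ring
    have h4 : (((gP p - PP p).map (Int.castRingHom (ZMod p))).comp (X + 1)).coeff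
        ((p - 1) / 2) = 0 := by
      exact (X_pow_dvd_iff.mp ⟨_, h3⟩) _ (by omega)
    rw [Polynomial.map_sub, sub_comp, coeff_sub, PP_coeff p hp4] at h4
    have h5 := gP_coeff p hp4
    have h6 := half_factorial_sq p hp4
    have h7 : (2 : ZMod p) = 0 := by
      linear_combination -((((p - 1) / 2).factorial : ℕ) : ZMod p) * h4 + h5 - h6
    have h8 : ((2 : ℕ) : ZMod p) = 0 := by exact_mod_cast h7
    rw [ZMod.natCast_eq_zero_iff] at h8
    have := Nat.le_of_dvd two_pos h8
    omega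
  · rw [h, PP_eval p hp4, hRR, neg_neg]

end Pool.Agent.Helper88.CN
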