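import Mathlib

set_option autoImplicit false
set_option linter.unusedSectionVars false

open Ideal

namespace Pool.Agent.Helper88.CN

variable (S : Type*) [CommRing S] [IsDedekindDomain S] [Module.Free ℤ S] [Module.Finite ℤ S]

/-- The number of ideals of given norm. -/
noncomputable def cnt (n : ℕ) : ℕ := Nat.card {I : Ideal S // absNorm I = n}

variable {S}

lemma coprime_of_norm {I J : Ideal S} (h : (absNorm I).Coprime (absNorm J)) : IsCoprime I J := by
  rw [Ideal.isCoprime_iff_exists]
  have h1 : IsCoprime ((absNorm I : ℕ) : ℤ) ((absNorm J : ℕ) : ℤ) := Nat.isCoprime_iff_coprime.mpr h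
  obtain ⟨u, v, huv⟩ := h1
  refine ⟨(u : S) * (absNorm I : S), I.mul_mem_left _ (absNorm_mem I),
    (v : S) * (absNorm J : S), J.mul_mem_left _ (absNorm_mem J), ?_⟩
  exact_mod_cast congrArg (fun z : ℤ => (z : S)) huv

lemma cnt_mul {m n : ℕ} (h : m.Coprime n) (hm : m ≠ 0) (hn : n ≠ 0) :
    cnt S (m * n) = cnt S m * cnt S n := by
  unfold cnt
  rw [← Nat.card_prod]
  symm
  apply Nat.card_congr
  refine Equiv.ofBijective (fun x => ⟨x.1.1 * x.2.1, by rw [map_mul, x.1.2, x.2.2]⟩) ⟨?_, ?_⟩
  · rintro ⟨⟨I, hI⟩, ⟨J, hJ⟩⟩ ⟨⟨I', hI'⟩, ⟨J', hJ'⟩⟩ he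
    have he' : I * J = I' * J' := congrArg Subtype.val he
    have c1 : IsCoprime I J' := coprime_of_norm (by rw [hI, hJ']; exact h)
    have c2 : IsCoprime I' J := coprime_of_norm (by rw [hI', hJ]; exact h)
    have d1 : I ∣ I' := c1.dvd_of_dvd_mul_right (he' ▸ dvd_mul_right I J)
    have d2 : I' ∣ I := c2.dvd_of_dvd_mul_right (he'.symm ▸ dvd_mul_right I' J')
    have e1 : I = I' := le_antisymm (dvd_iff_le.mp d2) (dvd_iff_le.mp d1)
    subst e1
    have hI0 : I ≠ 0 := by
      intro h0
      rw [h0, map_zero] at hI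
      exact hm hI.symm
    have e2 : J = J' := mul_left_cancel₀ hI0 he'
    subst e2
    rfl
  · rintro ⟨I, hI⟩
    have hmn : span {(m : S)} * span {(n : S)} ≤ I := by
      rw [span_singleton_mul_span_singleton, span_singleton_le_iff_mem]
      have h1 := absNorm_mem I
      rw [hI] at h1
      exact_mod_cast h1
    have htop : span {(m : S)} ⊔ span {(n : S)} = ⊤ := by
      have h1 : IsCoprime ((m : ℕ) : ℤ) ((n : ℕ) : ℤ) := Nat.isCoprime_iff_coprime.mpr h
      obtain ⟨u, v, huv⟩ := h1
      rw [eq_top_iff_one]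
      have h2 : (1 : S) = (u : S) * (m : S) + (v : S) * (n : S) := by
        have := congrArg (fun z : ℤ => (z : S)) huv
        push_cast at this
        exact this.symm
      rw [h2]
      exact Submodule.add_mem_sup (mul_mem_left _ _ (mem_span_singleton_self _))
        (mul_mem_left _ _ (mem_span_singleton_self _))
    set A := span {(m : S)} with hA
    set B := span {(n : S)} with hB
    have hprod : (I ⊔ A) * (I ⊔ B) = I := by
      apply le_antisymm
      · rw [Ideal.sup_mul, Ideal.mul_sup, Ideal.mul_sup]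
        refine sup_le (sup_le ?_ ?_) (sup_le ?_ hmn) <;>
          first | exact mul_le_right | exact mul_le_left
      · calc I = I * (A ⊔ B) := by rw [htop, mul_top]
          _ = I * A ⊔ I * B := Ideal.mul_sup _ _ _
          _ ≤ (I ⊔ A) * (I ⊔ B) := by
              apply sup_le
              · rw [mul_comm]; exact mul_mono le_sup_right le_sup_left
              · exact mul_mono le_sup_left le_sup_right
    have hnorm : absNorm (I ⊔ A) * absNorm (I ⊔ B) = m * n := by
      rw [← map_mul, hprod, hI]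
    have h1 : absNorm (I ⊔ A) ∣ m ^ Module.finrank ℤ S := by
      rw [← absNorm_span_natCast]
      exact absNorm_dvd_absNorm_of_le le_sup_right
    have h2 : absNorm (I ⊔ B) ∣ n ^ Module.finrank ℤ S := by
      rw [← absNorm_span_natCast]
      exact absNorm_dvd_absNorm_of_le le_sup_right
    have h3 : (absNorm (I ⊔ A)).Coprime n :=
      Nat.Coprime.coprime_dvd_left h1 (Nat.Coprime.pow_left _ h)
    have h4 : (absNorm (I ⊔ B)).Coprime m :=
      Nat.Coprime.coprime_dvd_left h2 (Nat.Coprime.pow_left _ h.symm)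
    have h5 : absNorm (I ⊔ A) ∣ m := h3.dvd_of_dvd_mul_right (hnorm ▸ Nat.dvd_mul_right _ _)
    have h6 : absNorm (I ⊔ B) ∣ n := h4.dvd_of_dvd_mul_left (hnorm ▸ Nat.dvd_mul_left _ _)
    have h7 : absNorm (I ⊔ A) = m ∧ absNorm (I ⊔ B) = n := by
      have hm0 : 0 < m := Nat.pos_of_ne_zero hm
      have hn0 : 0 < n := Nat.pos_of_ne_zero hn
      have l1 := Nat.le_of_dvd hm0 h5
      have l2 := Nat.le_of_dvd hn0 h6
      constructor
      · by_contra hne
        have : absNorm (I ⊔ A) < m := lt_of_le_of_ne l1 hne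
        nlinarith
      · by_contra hne
        have : absNorm (I ⊔ B) < n := lt_of_le_of_ne l2 hne
        nlinarith
    exact ⟨⟨⟨I ⊔ A, h7.1⟩, ⟨I ⊔ B, h7.2⟩⟩, Subtype.ext hprod⟩

lemma cnt_one : cnt S 1 = 1 := by
  unfold cnt
  simp_rw [absNorm_eq_one_iff]
  simp

lemma norm_ne_bot {I : Ideal S} {n : ℕ} (hn : n ≠ 0) (h : absNorm I = n) : I ≠ ⊥ := by
  rintro rfl
  rw [absNorm_bot] at h
  exact hn h.symm

/-- A prime factor of an ideal of prime power norm. -/
lemma exists_factor {l k : ℕ} (hl : l.Prime) {I : Ideal S} (h : absNorm I = l ^ (k + 1)) :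
    ∃ Q I' : Ideal S, Prime Q ∧ I = Q * I' ∧ Q ∣ span {(l : S)} := by
  have h1 : ¬ IsUnit I := by
    rw [Ideal.isUnit_iff, ← absNorm_eq_one_iff, h]
    exact (Nat.one_lt_pow (Nat.succ_ne_zero k) hl.one_lt).ne'
  have h2 : I ≠ 0 := norm_ne_bot (pow_ne_zero _ hl.ne_zero) h
  obtain ⟨Q, hQ, hQI⟩ := WfDvdMonoid.exists_irreducible_factor h1 h2
  have hQ' : Prime Q := UniqueFactorizationMonoid.irreducible_iff_prime.mp hQ
  obtain ⟨I', hI'⟩ := hQI
  refine ⟨Q, I', hQ', hI', ?_⟩
  have h3 : I ∣ span {(l : S)} ^ (k + 1) := by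
    rw [span_singleton_pow, dvd_iff_le, span_singleton_le_iff_mem]
    have := absNorm_mem I
    rw [h] at this
    exact_mod_cast this
  exact hQ'.dvd_of_dvd_pow ((hI' ▸ dvd_mul_right Q I' : Q ∣ I).trans h3)

/-- Split case. -/
lemma cnt_split {l : ℕ} (hl : l.Prime) {P P' : Ideal S} (hP : absNorm P = l)
    (hP' : absNorm P' = l) (hne : P ≠ P') (hpp : P * P' = span {(l : S)}) (k : ℕ) :
    cnt S (l ^ k) = k + 1 := by
  have pP : Prime P := by
    have h1 : Irreducible (absNorm P) := by rw [hP]; exact hl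
    exact UniqueFactorizationMonoid.irreducible_iff_prime.mp (irreducible_of_irreducible_absNorm h1)
  have pP' : Prime P' := by
    have h1 : Irreducible (absNorm P') := by rw [hP']; exact hl
    exact UniqueFactorizationMonoid.irreducible_iff_prime.mp (irreducible_of_irreducible_absNorm h1)
  have hnd : ¬ P ∣ P' := by
    intro h
    exact hne ((prime_dvd_prime_iff_eq pP pP').mp h)
  have hsurj : ∀ k : ℕ, ∀ I : Ideal S, absNorm I = l ^ k → ∃ a b : ℕ, a + b = k ∧
      I = P ^ a * P' ^ b := by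
    intro k
    induction k with
    | zero =>
      intro I hI
      rw [pow_zero, absNorm_eq_one_iff] at hI
      exact ⟨0, 0, rfl, by rw [hI]; simp⟩
    | succ k ih =>
      intro I hI
      obtain ⟨Q, I', hQ, hI', hQl⟩ := exists_factor hl hI
      rw [← hpp] at hQl
      rcases hQ.dvd_or_dvd hQl with h | h
      · have hQP : Q = P := (prime_dvd_prime_iff_eq hQ pP).mp h
        have h1 : absNorm I' = l ^ k := by
          rw [hI', map_mul, hQP, hP, pow_succ, mul_comm] at hI
          exact Nat.eq_of_mul_eq_mul_right hl.pos hI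
        obtain ⟨a, b, hab, hIab⟩ := ih I' h1
        exact ⟨a + 1, b, by omega, by rw [hI', hQP, hIab]; ring⟩
      · have hQP : Q = P' := (prime_dvd_prime_iff_eq hQ pP').mp h
        have h1 : absNorm I' = l ^ k := by
          rw [hI', map_mul, hQP, hP', pow_succ, mul_comm] at hI
          exact Nat.eq_of_mul_eq_mul_right hl.pos hI
        obtain ⟨a, b, hab, hIab⟩ := ih I' h1
        exact ⟨a, b + 1, by omega, by rw [hI', hQP, hIab]; ring⟩
  unfold cnt
  have h1 : Nat.card (Fin (k + 1)) = k + 1 := Nat.card_fin _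
  rw [← h1]
  symm
  apply Nat.card_congr
  refine Equiv.ofBijective (fun a : Fin (k + 1) => ⟨P ^ (a : ℕ) * P' ^ (k - a), ?_⟩) ⟨?_, ?_⟩
  · rw [map_mul, map_pow, map_pow, hP, hP', ← pow_add]
    congr 1
    omega
  · intro a b hab
    have hab' : P ^ (a : ℕ) * P' ^ (k - a) = P ^ (b : ℕ) * P' ^ (k - b) := congrArg Subtype.val hab
    have key : ∀ a b : ℕ, P ^ a * P' ^ (k - a) = P ^ b * P' ^ (k - b) → ¬ a < b := by
      intro a b h hlt
      have h2 : P ^ b = P ^ a * P ^ (b - a) := by rw [← pow_add]; congr 1; omega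
      rw [h2, mul_assoc] at h
      have h3 := mul_left_cancel₀ (pow_ne_zero a pP.ne_zero) h
      have h4 : P ∣ P' ^ (k - a) := by
        rw [h3]
        exact (dvd_pow_self P (by omega)).mul_right _
      exact hnd (pP.dvd_of_dvd_pow h4)
    apply Fin.ext
    have k1 := key a b hab'
    have k2 := key b a hab'.symm
    omega
  · rintro ⟨I, hI⟩
    obtain ⟨a, b, hab, hIab⟩ := hsurj k I hI
    refine ⟨⟨a, by omega⟩, Subtype.ext ?_⟩
    simp only
    rw [hIab]
    congr 2
    omega

/-- Ramified case. -/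
lemma cnt_ram {l : ℕ} (hl : l.Prime) {P : Ideal S} (hP : absNorm P = l)
    (hpp : P * P = span {(l : S)}) (k : ℕ) : cnt S (l ^ k) = 1 := by
  have pP : Prime P := by
    have h1 : Irreducible (absNorm P) := by rw [hP]; exact hl
    exact UniqueFactorizationMonoid.irreducible_iff_prime.mp (irreducible_of_irreducible_absNorm h1)
  have hsurj : ∀ k : ℕ, ∀ I : Ideal S, absNorm I = l ^ k → I = P ^ k := by
    intro k
    induction k with
    | zero =>
      intro I hI
      rw [pow_zero, absNorm_eq_one_iff] at hI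
      rw [hI]; simp
    | succ k ih =>
      intro I hI
      obtain ⟨Q, I', hQ, hI', hQl⟩ := exists_factor hl hI
      rw [← hpp] at hQl
      have hQP : Q = P := by
        rcases hQ.dvd_or_dvd hQl with h | h <;> exact (prime_dvd_prime_iff_eq hQ pP).mp h
      have h1 : absNorm I' = l ^ k := by
        rw [hI', map_mul, hQP, hP, pow_succ, mul_comm] at hI
        exact Nat.eq_of_mul_eq_mul_right hl.pos hI
      rw [hI', hQP, ih I' h1]
      ring
  unfold cnt
  rw [Nat.card_eq_one_iff_unique]
  constructor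
  · constructor
    rintro ⟨I, hI⟩ ⟨J, hJ⟩
    apply Subtype.ext
    simp only
    rw [hsurj k I hI, hsurj k J hJ]
  · exact ⟨⟨P ^ k, by rw [map_pow, hP]⟩⟩

/-- Inert case: the recursion. -/
lemma cnt_inert {l : ℕ} (hl : l.Prime) (h2 : Module.finrank ℤ S = 2)
    (hno : ∀ Q : Ideal S, absNorm Q ≠ l) (k : ℕ) :
    cnt S (l ^ k) = if Even k then 1 else 0 := by
  have hQ : ∀ Q : Ideal S, Prime Q → Q ∣ span {(l : S)} → Q = span {(l : S)} := by
    intro Q hQ hd
    have h1 : absNorm Q ∣ l ^ 2 := by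
      rw [← h2, ← absNorm_span_natCast]
      exact map_dvd absNorm hd
    obtain ⟨i, hi, hi2⟩ := (Nat.dvd_prime_pow hl).mp h1
    have hi3 : i = 2 := by
      interval_cases i
      · rw [pow_zero, absNorm_eq_one_iff] at hi2
        exact absurd hi2 (by
          intro h
          exact hQ.not_isUnit (Ideal.isUnit_iff.mpr h))
      · rw [pow_one] at hi2
        exact absurd hi2 (hno Q)
      · rfl
    obtain ⟨I, hI⟩ := hd
    have h3 : absNorm (span {(l : S)}) = l ^ 2 := by rw [absNorm_span_natCast, h2]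
    rw [hI, map_mul, hi2, hi3] at h3
    have h4 : absNorm I = 1 := by
      have h5 : l ^ 2 * absNorm I = l ^ 2 * 1 := by rw [h3, mul_one]
      exact Nat.eq_of_mul_eq_mul_left (pow_pos hl.pos 2) h5
    rw [absNorm_eq_one_iff] at h4
    rw [hI, h4, mul_top]
  have hsurj : ∀ k : ℕ, ∀ I : Ideal S, absNorm I = l ^ k → Even k ∧
      I = span {(l : S)} ^ (k / 2) := by
    intro k
    induction k using Nat.strong_induction_on with
    | _ k ih =>
      intro I hI
      match k, hI, ih with
      | 0, hI, _ =>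
        rw [pow_zero, absNorm_eq_one_iff] at hI
        rw [hI]; simp
      | 1, hI, _ =>
        rw [pow_one] at hI
        exact absurd hI (hno I)
      | k + 2, hI, ih =>
        obtain ⟨Q, I', hQ1, hI', hQl⟩ := exists_factor hl hI
        have hQP := hQ Q hQ1 hQl
        have h1 : absNorm I' = l ^ k := by
          rw [hI', map_mul, hQP, absNorm_span_natCast, h2, pow_add, mul_comm] at hI
          exact Nat.eq_of_mul_eq_mul_right (pow_pos hl.pos 2) hI
        obtain ⟨h3, h4⟩ := ih k (by omega) I' h1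
        refine ⟨h3.add even_two, ?_⟩
        rw [hI', hQP, h4, Nat.add_div_right k two_pos, pow_succ, mul_comm]
  unfold cnt
  split_ifs with hk
  · rw [Nat.card_eq_one_iff_unique]
    constructor
    · constructor
      rintro ⟨I, hI⟩ ⟨J, hJ⟩
      apply Subtype.ext
      simp only
      rw [(hsurj k I hI).2, (hsurj k J hJ).2]
    · refine ⟨⟨span {(l : S)} ^ (k / 2), ?_⟩⟩
      rw [map_pow, absNorm_span_natCast, h2, ← pow_mul]
      congr 1
      exact Nat.mul_div_cancel' hk.two_dvd
  · rw [Nat.card_eq_zero]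
    left
    constructor
    rintro ⟨I, hI⟩
    exact hk (hsurj k I hI).1

end Pool.Agent.Helper88.CN
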