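import Pool.Agent.Helper88.CN.Quad

set_option autoImplicit false
set_option linter.unusedSectionVars false

open Module NumberField NumberField.InfinitePlace NumberField.Units

namespace Pool.Agent.Helper88.CN

variable {K : Type*} [Field K] [NumberField K] {p : ℕ}
  (hK : finrank ℚ K = 2) {s : K} (hs : s ^ 2 = -(p : K))

include hs in
lemma nrReal (hp0 : 0 < p) : nrRealPlaces K = 0 := by
  rw [nrRealPlaces_eq_zero_iff]
  constructor
  intro w
  rw [← not_isReal_iff_isComplex]
  intro hw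
  rw [isReal_iff] at hw
  have h1 : (starRingEnd ℂ) (w.embedding s) = w.embedding s := by
    have := congrArg (fun f : K →+* ℂ => f s) hw
    exact this
  obtain ⟨r, hr⟩ := Complex.conj_eq_iff_real.mp h1
  have h2 := congrArg w.embedding hs
  rw [map_pow, map_neg, map_natCast, hr] at h2
  have h3 : r ^ 2 = -(p : ℝ) := by exact_mod_cast h2
  have h4 : (0 : ℝ) < p := by exact_mod_cast hp0
  nlinarith [sq_nonneg r]

include hs hK in
lemma nrComplex (hp0 : 0 < p) : nrComplexPlaces K = 1 := by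
  have h1 := card_add_two_mul_card_eq_rank K
  rw [nrReal hs hp0, hK] at h1
  omega

include hs hK in
lemma regulator_one (hp0 : 0 < p) : regulator K = 1 := by
  classical
  have h1 : Fintype.card (InfinitePlace K) = 1 := by
    rw [card_eq_nrRealPlaces_add_nrComplexPlaces, nrReal hs hp0, nrComplex hK hs hp0]
  rw [regulator_eq_det']
  have h2 : IsEmpty {w : InfinitePlace K // w ≠ dirichletUnitTheorem.w₀} := by
    constructor
    rintro ⟨w, hw⟩
    have := Fintype.card_le_one_iff.mp h1.le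
    exact hw (this _ _)
  rw [Matrix.det_isEmpty, abs_one]

include hs hK in
lemma torsion_two (hpp : p.Prime) (hp5 : 5 ≤ p) : torsionOrder K = 2 := by
  classical
  let := Fintype.ofFinite (torsion K)
  rw [torsionOrder, Nat.card_eq_fintype_card]
  have hneg : (-1 : (𝓞 K)ˣ) ∈ torsion K := by
    rw [torsion, CommGroup.mem_torsion, isOfFinOrder_iff_pow_eq_one]
    exact ⟨2, two_pos, by simp⟩
  refine (Finset.card_eq_two.2 ⟨1, ⟨-1, hneg⟩,
    by simp [← Subtype.coe_ne_coe], Finset.ext fun x ↦ ⟨fun _ ↦ ?_, fun _ ↦ Finset.mem_univ _⟩⟩)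
  rw [Finset.mem_insert, Finset.mem_singleton, ← Subtype.val_inj, ← Subtype.val_inj]
  obtain ⟨A, B, N, h1, h2, h3⟩ := int_coord hK hs hpp
    (RingOfIntegers.isIntegral_coe ((x : (𝓞 K)ˣ) : 𝓞 K))
  have h4 : N = 1 ∨ N = -1 := by
    have h5 := NumberField.Units.norm K (x : (𝓞 K)ˣ)
    have h6 : |(N : ℚ)| = 1 := by
      rw [← h3]
      exact h5
    have h7 : |N| = 1 := by exact_mod_cast h6
    exact (abs_eq (by norm_num)).mp h7
  have h5 : N = 1 := by
    rcases h4 with h | h
    · exact h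
    · exfalso
      rw [h] at h2
      have : (0 : ℤ) ≤ p := by positivity
      nlinarith [sq_nonneg A, mul_nonneg this (sq_nonneg B)]
  have h6 : B = 0 := by
    by_contra hB
    have h7 : 1 ≤ B ^ 2 := by
      have := sq_pos_of_ne_zero hB
      omega
    have h8 : (5 : ℤ) ≤ p := by exact_mod_cast hp5
    rw [h5] at h2
    nlinarith [sq_nonneg A]
  rw [h5, h6] at h2
  have h7 : A = 2 ∨ A = -2 := by
    have h8 : (A - 2) * (A + 2) = 0 := by linear_combination h2
    rcases mul_eq_zero.mp h8 with h | h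
    · left; omega
    · right; omega
  rw [h6] at h1
  rcases h7 with h | h
  · left
    apply Units.ext
    apply RingOfIntegers.ext
    rw [h] at h1
    push_cast at h1 ⊢
    have : (2 : K) * (((x : (𝓞 K)ˣ) : 𝓞 K) : K) = 2 * 1 := by linear_combination h1
    simpa using mul_left_cancel₀ two_ne_zero this
  · right
    apply Units.ext
    apply RingOfIntegers.ext
    rw [h] at h1
    push_cast at h1 ⊢
    have : (2 : K) * (((x : (𝓞 K)ˣ) : 𝓞 K) : K) = 2 * (-1) := by linear_combination h1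
    simpa using mul_left_cancel₀ two_ne_zero this

lemma QB.exists_basis {q : ℤ} {w : 𝓞 K} (h : QB q w) :
    ∃ b : Basis (Fin 2) ℤ (𝓞 K), b 0 = 1 ∧ b 1 = w := by
  have hli : LinearIndependent ℤ ![(1 : 𝓞 K), w] := by
    rw [LinearIndependent.pair_iff]
    intro a b hab
    apply h.indep
    rw [zsmul_eq_mul, zsmul_eq_mul, mul_one] at hab
    exact hab
  have hsp : ⊤ ≤ Submodule.span ℤ (Set.range ![(1 : 𝓞 K), w]) := by
    intro x _
    obtain ⟨a, b, hab⟩ := h.gen x
    rw [Submodule.mem_span_range_iff_exists_fun]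
    refine ⟨![a, b], ?_⟩
    rw [Fin.sum_univ_two, hab]
    simp
  refine ⟨Basis.mk hli hsp, ?_, ?_⟩ <;> simp

lemma QB.discr {q : ℤ} {w : 𝓞 K} (h : QB q w) : NumberField.discr K = 1 - 4 * q := by
  obtain ⟨b, h0, h1⟩ := h.exists_basis
  have hw : w * w = algebraMap ℤ (𝓞 K) 1 * w - algebraMap ℤ (𝓞 K) q := by
    have := h.sq
    rw [map_one]
    show w * w = 1 * w - (q : 𝓞 K)
    linear_combination this
  have t : ∀ x y : ℤ, Algebra.trace ℤ (𝓞 K) ((x : 𝓞 K) + y * w) = 2 * x + y := by
    intro x y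
    have := trace_gen b h0 h1 hw x y
    rw [one_mul] at this
    exact this
  rw [← NumberField.discr_eq_discr K b, Algebra.discr_def, Matrix.det_fin_two]
  simp only [Algebra.traceMatrix_apply, Algebra.traceForm_apply, h0, h1]
  have e1 : (1 : 𝓞 K) * 1 = ((1 : ℤ) : 𝓞 K) + (0 : ℤ) * w := by simp
  have e2 : (1 : 𝓞 K) * w = ((0 : ℤ) : 𝓞 K) + (1 : ℤ) * w := by simp
  have e3 : w * (1 : 𝓞 K) = ((0 : ℤ) : 𝓞 K) + (1 : ℤ) * w := by simp
  have e4 : w * w = ((-q : ℤ) : 𝓞 K) + (1 : ℤ) * w := by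
    push_cast
    linear_combination h.sq
  rw [e1, e2, e3, e4, t, t, t]
  ring

end Pool.Agent.Helper88.CN
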