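import Pool.Agent.Helper88.CN.GaussSign

set_option autoImplicit false

open Finset Complex Filter Topology

namespace Pool.Agent.Helper88.CN

variable (p : ℕ) [hp : Fact p.Prime]

/-- The real quadratic character. -/
noncomputable def rc (x : ZMod p) : ℝ := ((quadraticChar (ZMod p) x : ℤ) : ℝ)

lemma rc_zero : rc p 0 = 0 := by
  unfold rc; simp

lemma rc_abs (x : ZMod p) : |rc p x| ≤ 1 := by
  unfold rc
  rcases quadraticChar_isQuadratic (ZMod p) x with h | h | h <;> rw [h] <;> simp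

lemma rc_neg (hp4 : p % 4 = 3) (x : ZMod p) : rc p (-x) = -rc p x := by
  have hp2 : p ≠ 2 := by omega
  have h1 : quadraticChar (ZMod p) (-1) = -1 := by
    rw [quadraticChar_neg_one (by rw [ZMod.ringChar_zmod_n]; exact hp2), ZMod.card]
    exact ZMod.χ₄_nat_three_mod_four hp4
  unfold rc
  rw [← neg_one_mul x, map_mul, h1]
  push_cast
  ring

lemma rc_sum (hp2 : p ≠ 2) : ∑ x : ZMod p, rc p x = 0 := by
  have h1 := quadraticChar_sum_zero (F := ZMod p) (by rw [ZMod.ringChar_zmod_n]; exact hp2)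
  unfold rc
  exact_mod_cast h1

/-- The real L-series. -/
noncomputable def Fs (s : ℝ) : ℝ := ∑' n : ℕ, rc p n * (n : ℝ) ^ (-s)

/-- Blocks. -/
noncomputable def bk (s : ℝ) (k : ℕ) : ℝ :=
  ∑ j : ZMod p, rc p j * ((j.val : ℝ) + p * k) ^ (-s)

lemma summable_Fs {s : ℝ} (hs : 1 < s) : Summable (fun n : ℕ => rc p n * (n : ℝ) ^ (-s)) := by
  have h1 : Summable (fun n : ℕ => (n : ℝ) ^ (-s)) := Real.summable_nat_rpow.mpr (by linarith)
  apply Summable.of_norm_bounded h1
  intro n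
  rw [norm_mul, Real.norm_eq_abs, Real.norm_eq_abs,
    abs_of_nonneg (Real.rpow_nonneg (Nat.cast_nonneg n) _)]
  have h2 : 0 ≤ (n : ℝ) ^ (-s) := Real.rpow_nonneg (Nat.cast_nonneg n) _
  calc |rc p n| * (n : ℝ) ^ (-s) ≤ 1 * (n : ℝ) ^ (-s) :=
        mul_le_mul_of_nonneg_right (rc_abs p _) h2
    _ = _ := one_mul _

lemma Fs_eq {s : ℝ} (hs : 1 < s) : Fs p s = ∑' k, bk p s k := by
  have hsum := summable_Fs p hs
  unfold Fs
  rw [Nat.sumByResidueClasses hsum p]
  have h1 : ∀ (j : ZMod p) (m : ℕ), rc p ((j.val + p * m : ℕ) : ZMod p) *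
      ((j.val + p * m : ℕ) : ℝ) ^ (-s) = rc p j * ((j.val : ℝ) + p * m) ^ (-s) := by
    intro j m
    have h2 : ((j.val + p * m : ℕ) : ZMod p) = j := by
      push_cast
      rw [ZMod.natCast_self, zero_mul, add_zero, ZMod.natCast_zmod_val]
    rw [h2]
    push_cast
    rfl
  simp_rw [h1]
  unfold bk
  rw [Summable.tsum_finsetSum]
  intro j _
  have h3 : Function.Injective (fun m : ℕ => j.val + p * m) := by
    intro a b h
    have h4 : j.val + p * a = j.val + p * b := h
    exact Nat.eq_of_mul_eq_mul_left hp.out.pos (by omega)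
  refine (hsum.comp_injective h3).congr ?_
  intro m
  exact h1 j m

lemma rpow_diff {x y s : ℝ} (hx : 1 ≤ x) (hxy : x ≤ y) (hs1 : 1 ≤ s) (hs2 : s ≤ 2) :
    |x ^ (-s) - y ^ (-s)| ≤ 2 * (y - x) * (x ^ 2)⁻¹ := by
  have hx0 : 0 < x := by linarith
  have hy0 : 0 < y := by linarith
  have h1 : y ^ (-s) = x ^ (-s) * (x / y) ^ s := by
    rw [Real.div_rpow hx0.le hy0.le, Real.rpow_neg hx0.le, Real.rpow_neg hy0.le]
    have : x ^ s ≠ 0 := (Real.rpow_pos_of_pos hx0 s).ne'
    field_simp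
  have h2 : 1 + s * (x / y - 1) ≤ (x / y) ^ s := by
    have := one_add_mul_self_le_rpow_one_add (s := x / y - 1) (by
      have : 0 ≤ x / y := by positivity
      linarith) hs1
    have e : 1 + (x / y - 1) = x / y := by ring
    rw [e] at this
    exact this
  have h3 : (x / y) ^ s ≤ 1 := by
    apply Real.rpow_le_one (by positivity) _ (by linarith)
    rw [div_le_one hy0]; exact hxy
  have h4 : x ^ (-s) ≤ x⁻¹ := by
    rw [← Real.rpow_neg_one]
    exact Real.rpow_le_rpow_of_exponent_le hx (by linarith)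
  have h5 : 0 ≤ x ^ (-s) := Real.rpow_nonneg hx0.le _
  have h6 : x ^ (-s) - y ^ (-s) = x ^ (-s) * (1 - (x / y) ^ s) := by rw [h1]; ring
  rw [h6, abs_mul, abs_of_nonneg h5, abs_of_nonneg (by linarith)]
  have h7 : 1 - (x / y) ^ s ≤ 2 * (y - x) * x⁻¹ := by
    have h8 : 1 - (x / y) ^ s ≤ s * (1 - x / y) := by linarith
    have h9 : 1 - x / y = (y - x) / y := by field_simp
    have h10 : (y - x) / y ≤ (y - x) * x⁻¹ := by
      rw [div_eq_mul_inv]
      apply mul_le_mul_of_nonneg_left _ (by linarith)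
      exact inv_anti₀ hx0 hxy
    have h11 : 0 ≤ (y - x) / y := div_nonneg (by linarith) hy0.le
    rw [h9] at h8
    have h12 : s * ((y - x) / y) ≤ 2 * ((y - x) * x⁻¹) :=
      mul_le_mul hs2 h10 h11 (by norm_num)
    linarith
  calc x ^ (-s) * (1 - (x / y) ^ s) ≤ x⁻¹ * (2 * (y - x) * x⁻¹) :=
        mul_le_mul h4 h7 (by linarith) (by positivity)
    _ = 2 * (y - x) * (x ^ 2)⁻¹ := by
        rw [sq, mul_inv]; ring

lemma bk_bound (hp2 : p ≠ 2) {s : ℝ} (hs1 : 1 ≤ s) (hs2 : s ≤ 2) (k : ℕ) :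
    ‖bk p s k‖ ≤ (p * (2 * p)) * (((k : ℝ) + 1) ^ 2)⁻¹ := by
  have hp0 : (1 : ℝ) ≤ p := by exact_mod_cast hp.out.one_lt.le
  have h1 : bk p s k = ∑ j : ZMod p, rc p j *
      (((j.val : ℝ) + p * k) ^ (-s) - ((p : ℝ) * (k + 1)) ^ (-s)) := by
    unfold bk
    simp_rw [mul_sub]
    rw [Finset.sum_sub_distrib, ← Finset.sum_mul, rc_sum p hp2, zero_mul, sub_zero]
  rw [h1]
  refine (norm_sum_le _ _).trans ?_
  have h2 : ∀ j ∈ (Finset.univ : Finset (ZMod p)), ‖rc p j *
      (((j.val : ℝ) + p * k) ^ (-s) - ((p : ℝ) * (k + 1)) ^ (-s))‖ ≤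
      2 * p * (((k : ℝ) + 1) ^ 2)⁻¹ := by
    intro j _
    by_cases hj : j = 0
    · rw [hj, rc_zero, zero_mul, norm_zero]; positivity
    · have hjv : 1 ≤ j.val := by
        rw [Nat.one_le_iff_ne_zero, Ne, ZMod.val_eq_zero]; exact hj
      have hjv' : (1 : ℝ) ≤ j.val := by exact_mod_cast hjv
      have hjp : (j.val : ℝ) ≤ p := by exact_mod_cast (ZMod.val_lt j).le
      have hk0 : (0 : ℝ) ≤ k := Nat.cast_nonneg _
      have hx : (k : ℝ) + 1 ≤ (j.val : ℝ) + p * k := by nlinarith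
      have h3 := rpow_diff (x := (j.val : ℝ) + p * k) (y := (p : ℝ) * (k + 1)) (by linarith)
        (by nlinarith) hs1 hs2
      rw [norm_mul, Real.norm_eq_abs, Real.norm_eq_abs]
      calc |rc p j| * |((j.val : ℝ) + p * k) ^ (-s) - ((p : ℝ) * (k + 1)) ^ (-s)|
          ≤ 1 * (2 * ((p : ℝ) * (k + 1) - ((j.val : ℝ) + p * k)) *
            ((((j.val : ℝ) + p * k)) ^ 2)⁻¹) :=
            mul_le_mul (rc_abs p j) h3 (abs_nonneg _) zero_le_one
        _ ≤ 1 * (2 * p * (((k : ℝ) + 1) ^ 2)⁻¹) := by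
            apply mul_le_mul_of_nonneg_left _ zero_le_one
            apply mul_le_mul _ _ (by positivity) (by positivity)
            · linarith
            · apply inv_anti₀ (by positivity)
              apply pow_le_pow_left₀ (by positivity) hx
        _ = 2 * p * (((k : ℝ) + 1) ^ 2)⁻¹ := one_mul _
  refine (Finset.sum_le_sum h2).trans ?_
  rw [Finset.sum_const, Finset.card_univ, ZMod.card, nsmul_eq_mul]
  exact le_of_eq (by ring)

lemma summable_bound (C : ℝ) : Summable (fun k : ℕ => C * (((k : ℝ) + 1) ^ 2)⁻¹) := by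
  apply Summable.mul_left
  have h1 : Summable (fun k : ℕ => (((k : ℝ)) ^ 2)⁻¹) := Real.summable_nat_pow_inv.mpr one_lt_two
  have h2 := (summable_nat_add_iff 1).mpr h1
  refine h2.congr ?_
  intro k
  push_cast
  rfl

/-- The value at one. -/
noncomputable def L1 : ℝ := ∑' k, bk p 1 k

lemma summable_bk (hp2 : p ≠ 2) : Summable (fun k => bk p 1 k) :=
  Summable.of_norm_bounded (summable_bound _) (bk_bound p hp2 le_rfl one_le_two)

lemma tendsto_Fs (hp2 : p ≠ 2) : Tendsto (Fs p) (𝓝[>] 1) (𝓝 (L1 p)) := by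
  have h1 : Tendsto (fun s => ∑' k, bk p s k) (𝓝[>] 1) (𝓝 (L1 p)) := by
    unfold L1
    apply tendsto_tsum_of_dominated_convergence (summable_bound (p * (2 * p)))
    · intro k
      unfold bk
      apply tendsto_finsetSum
      intro j _
      by_cases hj : j = 0
      · rw [hj, rc_zero]; simp
      · have hjv : 1 ≤ j.val := by
          rw [Nat.one_le_iff_ne_zero, Ne, ZMod.val_eq_zero]; exact hj
        have hjv' : (1 : ℝ) ≤ j.val := by exact_mod_cast hjv
        have hpos : ((j.val : ℝ) + p * k) ≠ 0 := by positivity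
        have hcont : ContinuousAt (fun s : ℝ => ((j.val : ℝ) + p * k) ^ (-s)) 1 :=
          (Real.continuousAt_const_rpow hpos).comp continuousAt_neg
        exact (hcont.tendsto.mono_left nhdsWithin_le_nhds).const_mul _
    · have h2 : ∀ᶠ s : ℝ in 𝓝[>] 1, s < 2 :=
        (gt_mem_nhds one_lt_two).filter_mono nhdsWithin_le_nhds
      filter_upwards [h2, self_mem_nhdsWithin] with s hs hs1 k
      exact bk_bound p hp2 (le_of_lt hs1) hs.le k
  refine h1.congr' ?_
  filter_upwards [self_mem_nhdsWithin] with s hs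
  exact (Fs_eq p hs).symm

/-- Reflection. -/
lemma two_bk (hp4 : p % 4 = 3) (k : ℕ) : 2 * bk p 1 k = ∑ j : ZMod p, rc p j *
    (((j.val : ℝ) + p * k)⁻¹ + ((j.val : ℝ) - p * (k + 1))⁻¹) := by
  have h1 : bk p 1 k = ∑ j : ZMod p, rc p j * ((j.val : ℝ) + p * k)⁻¹ := by
    unfold bk
    simp_rw [Real.rpow_neg_one]
  have h2 : bk p 1 k = ∑ j : ZMod p, rc p j * ((j.val : ℝ) - p * (k + 1))⁻¹ := by
    rw [h1, ← Equiv.sum_comp (Equiv.neg (ZMod p))]
    apply Finset.sum_congr rfl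
    intro j _
    rw [Equiv.neg_apply, rc_neg p hp4]
    by_cases hj : j = 0
    · rw [hj, rc_zero]; simp
    · have hv : (((-j).val : ℕ) : ℝ) = p - j.val := by
        have h3 : (-j).val = p - j.val := by
          have := ZMod.neg_val j
          rw [if_neg hj] at this
          exact this
        rw [h3, Nat.cast_sub (ZMod.val_lt j).le]
      rw [hv]
      have h4 : (p : ℝ) - j.val + p * k = -((j.val : ℝ) - p * (k + 1)) := by ring
      rw [h4, inv_neg]
      ring
  have h3 : 2 * bk p 1 k = bk p 1 k + bk p 1 k := by ring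
  rw [h3]
  nth_rewrite 1 [h1]
  rw [h2, ← Finset.sum_add_distrib]
  apply Finset.sum_congr rfl
  intro j _
  ring

/-- Mittag-Leffler for the cotangent, in the form needed. -/
lemma tendsto_cot {j : ℕ} (hj0 : 0 < j) (hjp : j < p) :
    Tendsto (fun M : ℕ => ∑ k ∈ Finset.range M,
      (((j : ℂ) + p * k)⁻¹ + ((j : ℂ) - p * (k + 1))⁻¹)) atTop
      (𝓝 ((Real.pi / p) * cot (Real.pi * (j / p)))) := by
  have hpC : (p : ℂ) ≠ 0 := by exact_mod_cast hp.out.ne_zero
  have hjC : (j : ℂ) ≠ 0 := by exact_mod_cast hj0.ne'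
  have hx : ((j : ℂ) / p) ∈ integerComplement := by
    rw [mem_integerComplement_iff]
    rintro ⟨z, hz⟩
    have h1 : (z : ℂ) * p = j := by
      rw [hz]; field_simp
    have h2 : z * (p : ℤ) = (j : ℤ) := by exact_mod_cast h1
    have h3 : (p : ℤ) ∣ (j : ℤ) := ⟨z, by rw [← h2]; ring⟩
    have h4 : p ∣ j := by exact_mod_cast h3
    have := Nat.le_of_dvd hj0 h4
    omega
  have h1 := tendsto_logDeriv_euler_cot_sub hx
  have hpart : ∀ M : ℕ, ∑ k ∈ Finset.range M,
      (((j : ℂ) + p * k)⁻¹ + ((j : ℂ) - p * (k + 1))⁻¹) =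
      (j : ℂ)⁻¹ + (1 / p) * (∑ k ∈ Finset.range M, cotTerm ((j : ℂ) / p) k) -
        ((j : ℂ) + p * M)⁻¹ := by
    intro M
    induction M with
    | zero => simp
    | succ M ih =>
      rw [Finset.sum_range_succ, ih, Finset.sum_range_succ]
      have h2 : cotTerm ((j : ℂ) / p) M =
          p * (((j : ℂ) - p * (M + 1))⁻¹ + ((j : ℂ) + p * (M + 1))⁻¹) := by
        unfold cotTerm
        have e1 : (j : ℂ) / p - (M + 1) = ((j : ℂ) - p * (M + 1)) / p := by field_simp
        have e2 : (j : ℂ) / p + (M + 1) = ((j : ℂ) + p * (M + 1)) / p := by field_simp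
        rw [e1, e2, one_div_div, one_div_div]
        ring
      rw [h2]
      push_cast
      field_simp
      ring
  have h3 : Tendsto (fun M : ℕ => ((j : ℂ) + p * M)⁻¹) atTop (𝓝 0) := by
    have h4 : Tendsto (fun M : ℕ => (((j : ℝ) + p * M)⁻¹ : ℝ)) atTop (𝓝 0) := by
      apply tendsto_inv_atTop_zero.comp
      apply tendsto_atTop_add_const_left
      apply Tendsto.const_mul_atTop (by exact_mod_cast hp.out.pos)
      exact tendsto_natCast_atTop_atTop
    have h5 := (continuous_ofReal.tendsto 0).comp h4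
    rw [ofReal_zero] at h5
    refine h5.congr ?_
    intro M
    simp
  have h4 := ((h1.const_mul (1 / (p : ℂ))).const_add ((j : ℂ)⁻¹)).sub h3
  have h5 : (j : ℂ)⁻¹ + 1 / (p : ℂ) * (Real.pi * cot (Real.pi * ((j : ℂ) / p)) -
      1 / ((j : ℂ) / p)) - 0 = (Real.pi / p) * cot (Real.pi * (j / p)) := by
    field_simp
    ring
  rw [h5] at h4
  refine h4.congr ?_
  intro M
  exact (hpart M).symm

end Pool.Agent.Helper88.CN
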