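import Pool.Agent.Helper88.CN.LOne

set_option autoImplicit false

open Finset Complex Filter Topology

namespace Pool.Agent.Helper88.CN

variable (p : ℕ) [hp : Fact p.Prime]

lemma rc_qc (x : ZMod p) : ((rc p x : ℝ) : ℂ) = qc p x := by
  rw [qc_apply, rc]; push_cast; rfl

lemma two_L1 (hp4 : p % 4 = 3) : 2 * ((L1 p : ℝ) : ℂ) = ∑ j : ZMod p, qc p j *
    ((Real.pi / p) * cot (Real.pi * ((j.val : ℂ) / p))) := by
  have hp2 : p ≠ 2 := by omega
  have h1 : Tendsto (fun M : ℕ => ∑ k ∈ Finset.range M, 2 * bk p 1 k) atTop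
      (𝓝 (2 * L1 p)) := by
    have h2 := ((summable_bk p hp2).hasSum.mul_left 2).tendsto_sum_nat
    exact h2
  have h2 := (continuous_ofReal.tendsto _).comp h1
  have h3 : Tendsto (fun M : ℕ => ∑ j : ZMod p, qc p j * ∑ k ∈ Finset.range M,
      (((j.val : ℂ) + p * k)⁻¹ + ((j.val : ℂ) - p * (k + 1))⁻¹)) atTop
      (𝓝 (∑ j : ZMod p, qc p j * ((Real.pi / p) * cot (Real.pi * ((j.val : ℂ) / p))))) := by
    apply tendsto_finsetSum
    intro j _
    by_cases hj : j = 0
    · rw [hj, MulChar.map_zero]; simp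
    · have hjv : 0 < j.val := by
        rw [Nat.pos_iff_ne_zero, Ne, ZMod.val_eq_zero]; exact hj
      exact (tendsto_cot p hjv (ZMod.val_lt j)).const_mul _
  have h4 : (fun M : ℕ => ((∑ k ∈ Finset.range M, 2 * bk p 1 k : ℝ) : ℂ)) =
      (fun M : ℕ => ∑ j : ZMod p, qc p j * ∑ k ∈ Finset.range M,
      (((j.val : ℂ) + p * k)⁻¹ + ((j.val : ℂ) - p * (k + 1))⁻¹)) := by
    funext M
    have h5 : ∀ k : ℕ, ((2 * bk p 1 k : ℝ) : ℂ) = ∑ j : ZMod p, qc p j *
        (((j.val : ℂ) + p * k)⁻¹ + ((j.val : ℂ) - p * (k + 1))⁻¹) := by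
      intro k
      rw [two_bk p hp4 k]
      push_cast
      apply Finset.sum_congr rfl
      intro j _
      rw [rc_qc]
    rw [Complex.ofReal_sum]
    simp_rw [h5]
    rw [Finset.sum_comm]
    apply Finset.sum_congr rfl
    intro j _
    rw [Finset.mul_sum]
  have h5 : Tendsto (fun M : ℕ => ((∑ k ∈ Finset.range M, 2 * bk p 1 k : ℝ) : ℂ)) atTop
      (𝓝 ((2 * L1 p : ℝ) : ℂ)) := h2
  rw [h4] at h5
  have h6 := tendsto_nhds_unique h5 h3
  rw [← h6]
  push_cast
  ring

lemma sum_k_pow {w : ℂ} {n : ℕ} (hw : w ^ n = 1) (hw1 : w ≠ 1) :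
    (w - 1) * ∑ k ∈ Finset.range n, (k : ℂ) * w ^ k = n := by
  have h1 : ∀ n : ℕ, (w - 1) * ∑ k ∈ Finset.range n, (k : ℂ) * w ^ k =
      n * w ^ n - ∑ k ∈ Finset.range n, w ^ (k + 1) := by
    intro n
    induction n with
    | zero => simp
    | succ n ih =>
      rw [Finset.sum_range_succ, mul_add, ih, Finset.sum_range_succ]
      push_cast
      ring
  rw [h1, hw, mul_one]
  have h2 : ∑ k ∈ Finset.range n, w ^ (k + 1) = 0 := by
    have h3 : ∑ k ∈ Finset.range n, w ^ (k + 1) = w * ∑ k ∈ Finset.range n, w ^ k := by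
      rw [Finset.mul_sum]
      apply Finset.sum_congr rfl
      intro k _
      ring
    rw [h3]
    have h4 : (∑ k ∈ Finset.range n, w ^ k) * (w - 1) = w ^ n - 1 := geom_sum_mul w n
    rw [hw, sub_self] at h4
    rcases mul_eq_zero.mp h4 with h | h
    · rw [h, mul_zero]
    · exact absurd (sub_eq_zero.mp h) hw1
  rw [h2, sub_zero]

lemma cot_eq {j : ZMod p} (hj : j ≠ 0) : cot (Real.pi * ((j.val : ℂ) / p)) =
    I * (1 + (2 / p) * ∑ k ∈ Finset.range p, (k : ℂ) * (zt p ^ j.val) ^ k) := by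
  have hpC : (p : ℂ) ≠ 0 := by exact_mod_cast hp.out.ne_zero
  rw [Complex.cot_pi_eq_exp_ratio]
  have h1 : exp (2 * Real.pi * I * ((j.val : ℂ) / p)) = zt p ^ j.val := by
    rw [zt, ← Complex.exp_nat_mul]
    congr 1
    ring
  rw [h1]
  have hjv : 0 < j.val := by
    rw [Nat.pos_iff_ne_zero, Ne, ZMod.val_eq_zero]; exact hj
  have hw1 : zt p ^ j.val ≠ 1 := (zt_prim p).pow_ne_one_of_pos_of_lt hjv.ne' (ZMod.val_lt j)
  have hw : (zt p ^ j.val) ^ p = 1 := by
    rw [← pow_mul, mul_comm, pow_mul, (zt_prim p).pow_eq_one, one_pow]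
  have h2 := sum_k_pow hw hw1
  set w := zt p ^ j.val with hwdef
  have h3 : w - 1 ≠ 0 := sub_ne_zero.mpr hw1
  have h4 : ∑ k ∈ Finset.range p, (k : ℂ) * w ^ k = p / (w - 1) := by
    rw [eq_div_iff h3, mul_comm]; exact h2
  rw [h4]
  have h5 : (1 - w) ≠ 0 := by
    intro h; apply h3; linear_combination -h
  have h6 : (p : ℂ) * (1 + 2 / p * (p / (w - 1))) = p * ((w + 1) / (w - 1)) := by
    field_simp
    ring
  have h7 : (1 + 2 / (p : ℂ) * (p / (w - 1))) = ((w + 1) / (w - 1)) :=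
    mul_left_cancel₀ hpC h6
  rw [h7]
  rw [div_eq_iff (mul_ne_zero I_ne_zero h5)]
  have h8 : (1 - w) = -(w - 1) := by ring
  rw [h8]
  have h9 : I * ((w + 1) / (w - 1)) * (I * -(w - 1)) = -(I * I) * (w + 1) * ((w - 1) / (w - 1)) := by
    ring
  rw [h9, div_self h3, I_mul_I]
  ring

/-- The first moment. -/
noncomputable def AA : ℝ := ∑ x : ZMod p, (x.val : ℝ) * rc p x

lemma gauss_shift (hp2 : p ≠ 2) (k : ZMod p) : ∑ j : ZMod p, qc p j * (zt p ^ j.val) ^ k.val =
    qc p k * GS p := by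
  have h0 : ∀ j : ZMod p, (zt p ^ j.val) ^ k.val = (ZMod.stdAddChar (k * j) : ℂ) := by
    intro j
    rw [stdAddChar_eq, ← pow_mul, ZMod.val_mul, mul_comm j.val k.val]
    have h1 := pow_mod_orderOf (zt p) (k.val * j.val)
    rw [← (zt_prim p).eq_orderOf] at h1
    exact h1.symm
  simp_rw [h0]
  by_cases hk : k = 0
  · rw [hk, MulChar.map_zero, zero_mul]
    simp only [zero_mul, AddChar.map_zero_eq_one, mul_one]
    exact MulChar.sum_eq_zero_of_ne_one (qc_ne_one p hp2)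
  · have h1 := gaussSum_mulShift (qc p) (ZMod.stdAddChar (N := p)) (Units.mk0 k hk)
    have h2 : qc p k * qc p k = 1 := by
      rw [← map_mul, qc_apply, ← sq, quadraticChar_sq_one' hk]
      simp
    have h3 : gaussSum (qc p) (AddChar.mulShift (ZMod.stdAddChar (N := p)) k) =
        qc p k * GS p := by
      rw [Units.val_mk0] at h1
      unfold GS
      rw [← h1, ← mul_assoc, h2, one_mul]
    rw [← h3, gaussSum]
    apply Finset.sum_congr rfl
    intro j _
    rw [AddChar.mulShift_apply]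

theorem L1_eq (hp4 : p % 4 = 3) : L1 p = -(Real.pi * AA p) / (p * Real.sqrt p) := by
  have hp2 : p ≠ 2 := by omega
  have hpC : (p : ℂ) ≠ 0 := by exact_mod_cast hp.out.ne_zero
  have hp0 : (0 : ℝ) < p := by exact_mod_cast hp.out.pos
  have h1 := two_L1 p hp4
  have h2 : ∀ j : ZMod p, qc p j * ((Real.pi / p) * cot (Real.pi * ((j.val : ℂ) / p))) =
      (Real.pi / p) * I * qc p j + (Real.pi / p) * I * (2 / p) *
        ∑ k ∈ Finset.range p, (k : ℂ) * (qc p j * (zt p ^ j.val) ^ k) := by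
    intro j
    by_cases hj : j = 0
    · rw [hj, MulChar.map_zero]; simp
    · rw [cot_eq p hj]
      have h3 : ∑ k ∈ Finset.range p, (k : ℂ) * (qc p j * (zt p ^ j.val) ^ k) =
          qc p j * ∑ k ∈ Finset.range p, (k : ℂ) * (zt p ^ j.val) ^ k := by
        rw [Finset.mul_sum]
        apply Finset.sum_congr rfl
        intro k _
        ring
      rw [h3]
      ring
  simp_rw [h2] at h1
  rw [Finset.sum_add_distrib, ← Finset.mul_sum, ← Finset.mul_sum,
    MulChar.sum_eq_zero_of_ne_one (qc_ne_one p hp2), mul_zero, zero_add, Finset.sum_comm] at h1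
  have h3 : ∑ k ∈ Finset.range p, ∑ j : ZMod p, (k : ℂ) * (qc p j * (zt p ^ j.val) ^ k) =
      (AA p : ℂ) * GS p := by
    have h4 : ∀ k ∈ Finset.range p, ∑ j : ZMod p, (k : ℂ) * (qc p j * (zt p ^ j.val) ^ k) =
        (k : ℂ) * (qc p (k : ZMod p) * GS p) := by
      intro k hk
      rw [← Finset.mul_sum]
      have h5 := gauss_shift p hp2 (k : ZMod p)
      rw [ZMod.val_natCast_of_lt (Finset.mem_range.mp hk)] at h5
      rw [h5]
    rw [Finset.sum_congr rfl h4]
    unfold AA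
    push_cast
    rw [Finset.sum_mul]
    symm
    apply Finset.sum_bij (fun (x : ZMod p) _ => x.val)
    · intro x _; exact Finset.mem_range.mpr (ZMod.val_lt x)
    · intro x _ y _ h; exact ZMod.val_injective p h
    · intro k hk
      exact ⟨(k : ZMod p), Finset.mem_univ _, ZMod.val_natCast_of_lt (Finset.mem_range.mp hk)⟩
    · intro x _
      rw [rc_qc, ZMod.natCast_zmod_val]
      ring
  rw [h3, GS_eq p hp4] at h1
  have h4 : (2 * L1 p : ℝ) = (2 * (-(Real.pi * AA p * Real.sqrt p) / (p ^ 2)) : ℝ) := by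
    have h5 : ((2 * L1 p : ℝ) : ℂ) =
        ((2 * (-(Real.pi * AA p * Real.sqrt p) / (p ^ 2)) : ℝ) : ℂ) := by
      push_cast
      rw [h1]
      have h6 : (Real.pi : ℂ) / p * I * (2 / p) * (AA p * (I * (Real.sqrt p : ℝ))) =
        (I * I) * ((Real.pi : ℂ) / p * (2 / p) * (AA p * (Real.sqrt p : ℝ))) := by ring
      rw [h6, I_mul_I]
      field_simp
    exact_mod_cast h5
  have h5 : L1 p = -(Real.pi * AA p * Real.sqrt p) / (p ^ 2) := by linarith
  rw [h5]
  have h6 : Real.sqrt p * Real.sqrt p = p := Real.mul_self_sqrt hp0.le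
  have h7 : Real.sqrt p ≠ 0 := (Real.sqrt_pos.mpr hp0).ne'
  rw [div_eq_div_iff (by positivity) (mul_ne_zero hp0.ne' h7)]
  have h8 : -(Real.pi * AA p * Real.sqrt p) * (p * Real.sqrt p) =
    -(Real.pi * AA p) * (p * (Real.sqrt p * Real.sqrt p)) := by ring
  rw [h8, h6]
  ring

end Pool.Agent.Helper88.CN
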