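import Pool.Agent.Helper88.CN.Sign
import Pool.Agent.Helper88.CN.Four

set_option autoImplicit false
set_option linter.unusedSectionVars false

open Finset

namespace Pool.Agent.Helper88.CN

variable (p : ℕ) [hp : Fact p.Prime]

lemma leg_ne_zero {r : ℕ} (h : legendreSym p (r : ℤ) = 1) : 1 ≤ r := by
  rw [Nat.one_le_iff_ne_zero]
  rintro rfl
  rw [Nat.cast_zero, legendreSym.at_zero] at h
  exact zero_ne_one h

lemma Np_eq : Np p = ((QR p).filter (fun r => 12 * r < p)).card := by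
  unfold Np QR
  rw [Finset.filter_filter]
  congr 1
  apply Finset.filter_congr
  intro r _
  constructor
  · rintro ⟨_, h2, h3⟩; exact ⟨h3, h2⟩
  · rintro ⟨h2, h3⟩; exact ⟨leg_ne_zero p h2, h3, h2⟩

lemma Gn_one (hp2 : p ≠ 2) : Gn p 1 + Np p = (p - 1) / 2 := by
  rw [Np_eq, ← card_QR p hp2, add_comm]
  have h := Finset.card_filter_add_card_filter_not (s := QR p) (fun r => 12 * r < p)
  rw [← h]
  congr 1
  unfold Gn
  congr 1
  apply Finset.filter_congr
  intro r _
  unfold sg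
  constructor
  · intro h1 h2
    rw [if_pos (Or.inl ⟨rfl, h2⟩)] at h1
    norm_num at h1
  · intro h1
    rw [if_neg]
    rintro (⟨_, h2⟩ | ⟨h2, _⟩)
    · exact h1 h2
    · norm_num at h2

/-- The number of large residues. -/
noncomputable def Nl : ℕ := ((QR p).filter (fun r => 11 * p < 12 * r)).card

lemma Gn_neg (hp2 : p ≠ 2) : Gn p (-1) + Nl p = (p - 1) / 2 := by
  unfold Nl
  rw [← card_QR p hp2, add_comm]
  have h := Finset.card_filter_add_card_filter_not (s := QR p) (fun r => 11 * p < 12 * r)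
  rw [← h]
  congr 1
  unfold Gn
  congr 1
  apply Finset.filter_congr
  intro r _
  unfold sg
  constructor
  · intro h1 h2
    rw [if_pos (Or.inr ⟨rfl, h2⟩)] at h1
    norm_num at h1
  · intro h1
    rw [if_neg]
    rintro (⟨h2, _⟩ | ⟨_, h2⟩)
    · norm_num at h2
    · exact h1 h2

lemma leg_sub {r : ℕ} (hr : r ≤ p) : legendreSym p ((p - r : ℕ) : ℤ) =
    quadraticChar (ZMod p) (-1) * legendreSym p (r : ℤ) := by
  rw [leg_qc, leg_qc, Nat.cast_sub hr, ZMod.natCast_self, zero_sub, ← neg_one_mul, map_mul]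

lemma Nl_one (hp4 : p % 4 = 1) : Nl p = Np p := by
  have hm1 : quadraticChar (ZMod p) (-1) = 1 := by
    rw [quadraticChar_neg_one (by rw [ZMod.ringChar_zmod_n]; omega), ZMod.card]
    exact ZMod.χ₄_nat_one_mod_four hp4
  rw [Np_eq]
  unfold Nl
  apply Finset.card_bij (fun r _ => p - r)
  · intro r hr
    rw [mem_filter, mem_QR] at hr
    obtain ⟨⟨h1, h2⟩, h3⟩ := hr
    have := leg_ne_zero p h2
    rw [mem_filter, mem_QR, leg_sub p h1.le, hm1, h2]
    exact ⟨⟨by omega, by norm_num⟩, by omega⟩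
  · intro a ha b hb hab
    rw [mem_filter, mem_QR] at ha hb
    omega
  · intro r hr
    rw [mem_filter, mem_QR] at hr
    obtain ⟨⟨h1, h2⟩, h3⟩ := hr
    have := leg_ne_zero p h2
    refine ⟨p - r, ?_, by omega⟩
    rw [mem_filter, mem_QR, leg_sub p h1.le, hm1, h2]
    exact ⟨⟨by omega, by norm_num⟩, by omega⟩

lemma Nl_three (hp4 : p % 4 = 3) : Nl p + Np p = (p - 1) / 12 := by
  have hm1 : quadraticChar (ZMod p) (-1) = -1 := by
    rw [quadraticChar_neg_one (by rw [ZMod.ringChar_zmod_n]; omega), ZMod.card]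
    exact ZMod.χ₄_nat_three_mod_four hp4
  have h1 : Nl p = (((Finset.Icc 1 ((p - 1) / 12))).filter
      (fun r : ℕ => ¬ legendreSym p (r : ℤ) = 1)).card := by
    unfold Nl
    apply Finset.card_bij (fun r _ => p - r)
    · intro r hr
      rw [mem_filter, mem_QR] at hr
      obtain ⟨⟨h1, h2⟩, h3⟩ := hr
      have := leg_ne_zero p h2
      rw [mem_filter, mem_Icc, leg_sub p h1.le, hm1, h2]
      exact ⟨by omega, by norm_num⟩
    · intro a ha b hb hab
      rw [mem_filter, mem_QR] at ha hb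
      omega
    · intro r hr
      rw [mem_filter, mem_Icc] at hr
      obtain ⟨⟨h1, h2⟩, h3⟩ := hr
      refine ⟨p - r, ?_, by omega⟩
      have hrz : (r : ZMod p) ≠ 0 := by
        rw [Ne, ZMod.natCast_eq_zero_iff]
        intro hd
        have := Nat.le_of_dvd (by omega) hd
        omega
      have h4 : legendreSym p (r : ℤ) = -1 := by
        rw [leg_qc] at h3 ⊢
        rcases quadraticChar_dichotomy hrz with h | h
        · exact absurd h h3
        · exact h
      rw [mem_filter, mem_QR, leg_sub p (by omega), hm1, h4]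
      exact ⟨⟨by omega, by norm_num⟩, by omega⟩
  have h2 : Np p = (((Finset.Icc 1 ((p - 1) / 12))).filter
      (fun r : ℕ => legendreSym p (r : ℤ) = 1)).card := by
    unfold Np
    congr 1
    ext r
    rw [mem_filter, mem_filter, mem_range, mem_Icc]
    constructor
    · rintro ⟨_, h3, h4, h5⟩; exact ⟨⟨h3, by omega⟩, h5⟩
    · rintro ⟨⟨h3, h4⟩, h5⟩; exact ⟨by omega, h3, by omega, h5⟩
  rw [h1, h2, add_comm, Finset.card_filter_add_card_filter_not, Nat.card_Icc]
  omega

/-- The floor sum. -/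
noncomputable def Fl : ℕ := ∑ k ∈ Finset.Icc 1 ((p - 1) / 2), k ^ 2 / p

lemma sum_split (hp2 : p ≠ 2) : ∑ k ∈ Finset.Icc 1 ((p - 1) / 2), k ^ 2 =
    p * Fl p + ∑ r ∈ QR p, r := by
  rw [← sum_sq p hp2 (fun r => r)]
  unfold Fl
  rw [Finset.mul_sum, ← Finset.sum_add_distrib]
  apply Finset.sum_congr rfl
  intro k _
  exact (Nat.div_add_mod (k ^ 2) p).symm

/-- The value of `T` up to sign. -/
lemma Tp_eq {h M : ℕ} {e : ℤ} (he : e = 1 ∨ e = -1) (hp5 : 5 ≤ p)
    (hM : 24 * M = p ^ 2 - 1) : ∃ R : ℝ, 0 < R ∧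
    Tp p h e = Complex.exp (2 * Real.pi * Complex.I * e * ((p : ℂ) - 1) / 48) *
      Complex.exp (Complex.I * (((p - 1) / 2 : ℕ) * (Real.pi * e / 12))) *
      Complex.I ^ ((p - 1) / 2) * ((-1) ^ (h / 2 + Np p + M + Fl p + Gn p e) * (R : ℝ)) := by
  have hp2 : p ≠ 2 := by omega
  obtain ⟨R, hR, hprod⟩ := prod_sin p e he hp5
  have hpC : (p : ℂ) ≠ 0 := by exact_mod_cast hp.out.ne_zero
  have hsum : (∑ k ∈ Finset.Icc 1 ((p - 1) / 2), k ^ 2) = p * M := by
    have h1 := sum_squares p hp2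
    rw [← hM] at h1
    have h2 : 24 * ∑ k ∈ Finset.Icc 1 ((p - 1) / 2), k ^ 2 = 24 * (p * M) := by
      rw [h1]; ring
    exact Nat.eq_of_mul_eq_mul_left (by norm_num) h2
  refine ⟨2 ^ ((p - 1) / 2) * R, by positivity, ?_⟩
  unfold Tp
  rw [Sp_eq, hprod, hsum]
  have h1 : Complex.exp (Complex.I * (((p - 1) / 2 : ℕ) * (Real.pi * e / 12) +
      Real.pi * ((p * M : ℕ) : ℂ) / p)) =
      Complex.exp (Complex.I * (((p - 1) / 2 : ℕ) * (Real.pi * e / 12))) * (-1) ^ M := by
    rw [mul_add, Complex.exp_add]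
    congr 1
    have h2 : Complex.I * (Real.pi * ((p * M : ℕ) : ℂ) / p) = (M : ℂ) * (Real.pi * Complex.I) := by
      push_cast
      field_simp
    rw [h2, Complex.exp_nat_mul, Complex.exp_pi_mul_I]
  rw [h1]
  unfold Fl
  push_cast
  rw [mul_pow]
  ring

/-- The case of `p` congruent to 1. -/
theorem main_one {K : Type*} [Field K] [NumberField K] (hK : Module.finrank ℚ K = 2) {s : K}
    (hs : s ^ 2 = -(p : K)) (hp24 : p % 24 = 1) {e : ℤ} (he : e = 1 ∨ e = -1) :
    ∃ R : ℝ, 0 < R ∧ Tp p (NumberField.classNumber K) e = (R : ℝ) := by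
  have hp1 := hp.out.one_lt
  obtain ⟨t, ht⟩ : ∃ t, p = 24 * t + 1 := ⟨p / 24, by omega⟩
  obtain ⟨h', hh'⟩ := four_dvd hK hs (by omega)
  have hM : 24 * (24 * t ^ 2 + 2 * t) = p ^ 2 - 1 := by
    rw [ht]
    have : (24 * t + 1) ^ 2 = 24 * (24 * t ^ 2 + 2 * t) + 1 := by ring
    omega
  obtain ⟨R, hR, hT⟩ := Tp_eq p (h := NumberField.classNumber K) he (by omega) hM
  refine ⟨R, hR, ?_⟩
  rw [hT]
  have hm : (p - 1) / 2 = 12 * t := by omega
  have hphase : Complex.exp (2 * Real.pi * Complex.I * e * ((p : ℂ) - 1) / 48) *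
      Complex.exp (Complex.I * (((p - 1) / 2 : ℕ) * (Real.pi * e / 12))) = 1 := by
    rw [← Complex.exp_add, hm]
    have h1 : 2 * Real.pi * Complex.I * e * ((p : ℂ) - 1) / 48 +
        Complex.I * (((12 * t : ℕ) : ℂ) * (Real.pi * e / 12)) =
        ((e * t : ℤ) : ℂ) * (2 * Real.pi * Complex.I) := by
      rw [ht]
      push_cast
      ring
    rw [h1, Complex.exp_int_mul_two_pi_mul_I]
  rw [hphase, hm]
  have hI : Complex.I ^ (12 * t) = 1 := by
    have : Complex.I ^ (12 * t) = (Complex.I ^ 4) ^ (3 * t) := by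
      rw [← pow_mul]; congr 1; ring
    rw [this, Complex.I_pow_four, one_pow]
  rw [hI]
  -- the floor sum
  have hQR : ∑ r ∈ QR p, r = p * (6 * t) := by
    have h1 := two_sum_QR p
    rw [AA_zero p (by omega), add_zero] at h1
    have h2 : ((∑ r ∈ QR p, r : ℕ) : ℝ) = ((p * (6 * t) : ℕ) : ℝ) := by
      push_cast
      have h3 : (p : ℝ) = 24 * t + 1 := by rw [ht]; push_cast; ring
      rw [h3] at h1 ⊢
      linarith
    exact_mod_cast h2
  have hF : 24 * t ^ 2 + 2 * t = Fl p + 6 * t := by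
    have h1 := sum_split p (by omega)
    have h2 := sum_squares p (by omega)
    rw [← hM, h1, hQR] at h2
    have h3 : (24 * p) * (Fl p + 6 * t) = (24 * p) * (24 * t ^ 2 + 2 * t) := by
      linarith
    exact (Nat.eq_of_mul_eq_mul_left (by omega) h3).symm
  have hG : Gn p e + Np p = 12 * t := by
    rcases he with rfl | rfl
    · rw [Gn_one p (by omega), hm]
    · rw [← hm, ← Gn_neg p (by omega), Nl_one p (by omega)]
  have hE : Even (NumberField.classNumber K / 2 + Np p + (24 * t ^ 2 + 2 * t) + Fl p + Gn p e) := by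
    rw [Nat.even_iff, hF, hh']
    omega
  rw [hE.neg_one_pow]
  simp

/-- The case of `p` congruent to 7. -/
theorem main_seven {K : Type*} [Field K] [NumberField K] (hK : Module.finrank ℚ K = 2) {s : K}
    (hs : s ^ 2 = -(p : K)) (hp24 : p % 24 = 7) {e : ℤ} (he : e = 1 ∨ e = -1) :
    ∃ R : ℝ, 0 < R ∧ (e : ℂ) * Tp p (NumberField.classNumber K) e = (R : ℝ) := by
  have hp1 := hp.out.one_lt
  obtain ⟨t, ht⟩ : ∃ t, p = 24 * t + 7 := ⟨p / 24, by omega⟩
  have hcl := class_number_formula hK hs (by omega : p % 8 = 7)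
  unfold AA at hcl
  have hM : 24 * (24 * t ^ 2 + 14 * t + 2) = p ^ 2 - 1 := by
    rw [ht]
    have : (24 * t + 7) ^ 2 = 24 * (24 * t ^ 2 + 14 * t + 2) + 1 := by ring
    omega
  obtain ⟨R, hR, hT⟩ := Tp_eq p (h := NumberField.classNumber K) he (by omega) hM
  refine ⟨R, hR, ?_⟩
  rw [hT]
  have hm : (p - 1) / 2 = 12 * t + 3 := by omega
  have hphase : Complex.exp (2 * Real.pi * Complex.I * e * ((p : ℂ) - 1) / 48) *
      Complex.exp (Complex.I * (((p - 1) / 2 : ℕ) * (Real.pi * e / 12))) = e * Complex.I := by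
    rw [← Complex.exp_add, hm]
    have h1 : 2 * Real.pi * Complex.I * e * ((p : ℂ) - 1) / 48 +
        Complex.I * (((12 * t + 3 : ℕ) : ℂ) * (Real.pi * e / 12)) =
        ((e * t : ℤ) : ℂ) * (2 * Real.pi * Complex.I) + e * (Real.pi / 2 * Complex.I) := by
      rw [ht]
      push_cast
      ring
    rw [h1, Complex.exp_add, Complex.exp_int_mul_two_pi_mul_I, one_mul]
    rcases he with rfl | rfl
    · push_cast
      rw [one_mul, one_mul, Complex.exp_pi_div_two_mul_I]
    · push_cast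
      rw [neg_one_mul, neg_one_mul, Complex.exp_neg, Complex.exp_pi_div_two_mul_I, Complex.inv_I]
  rw [hphase, hm]
  have hI : Complex.I ^ (12 * t + 3) = -Complex.I := by
    have : Complex.I ^ (12 * t + 3) = (Complex.I ^ 4) ^ (3 * t) * Complex.I ^ 3 := by
      rw [← pow_mul, ← pow_add]; congr 1; ring
    rw [this, Complex.I_pow_four, one_pow, one_mul, Complex.I_pow_three]
  rw [hI]
  -- the floor sum
  have hF : 2 * (24 * t ^ 2 + 14 * t + 2) + NumberField.classNumber K = 2 * Fl p + (12 * t + 3) := by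
    have h1 := two_sum_QR p
    have h2 := sum_split p (by omega)
    have h3 := sum_squares p (by omega)
    rw [← hM, h2] at h3
    have h4 : ((24 * (p * Fl p + ∑ r ∈ QR p, r) : ℕ) : ℝ) =
        ((p * (24 * (24 * t ^ 2 + 14 * t + 2)) : ℕ) : ℝ) := by rw [h3]
    push_cast at h4
    have hp0 : (p : ℝ) ≠ 0 := by exact_mod_cast hp.out.ne_zero
    have h5 : (p : ℝ) * (2 * (24 * t ^ 2 + 14 * t + 2) + (NumberField.classNumber K : ℝ)) =
        p * (2 * (Fl p : ℝ) + (12 * t + 3)) := by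
      have h6 : (p : ℝ) * (p - 1) / 2 = p * (12 * t + 3) := by
        have h3 : (p : ℝ) = 24 * t + 7 := by rw [ht]; push_cast; ring
        rw [h3]; ring
      rw [h6] at h1
      linarith
    have h6 := mul_left_cancel₀ hp0 h5
    exact_mod_cast h6
  have hG : (Gn p e + Np p) % 2 = 1 := by
    rcases he with rfl | rfl
    · rw [Gn_one p (by omega), hm]; omega
    · have h1 := Gn_neg p (by omega)
      have h2 := Nl_three p (by omega)
      omega
  have hE : Even (NumberField.classNumber K / 2 + Np p + (24 * t ^ 2 + 14 * t + 2) + Fl p +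
      Gn p e) := by
    rw [Nat.even_iff]
    generalize 24 * t ^ 2 = z at *
    omega
  rw [hE.neg_one_pow]
  have hee : (e : ℂ) * e = 1 := by rcases he with rfl | rfl <;> norm_num
  have hII := Complex.I_mul_I
  linear_combination (-(Complex.I * Complex.I) * (R : ℂ)) * hee - (R : ℂ) * hII

end Pool.Agent.Helper88.CN
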