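import Pool.Agent.Helper88.CN.IdealCount

set_option autoImplicit false
set_option linter.unusedSectionVars false

open Ideal

namespace Pool.Agent.Helper88.CN

/-- `R` is generated by `w` with `w ^ 2 = w - q`. -/
structure QB (q : ℤ) {R : Type*} [CommRing R] (w : R) : Prop where
  sq : w ^ 2 = w - q
  gen : ∀ x : R, ∃ a b : ℤ, x = a + b * w
  indep : ∀ a b : ℤ, (a : R) + b * w = 0 → a = 0 ∧ b = 0

lemma QB.unique {q : ℤ} {R : Type*} [CommRing R] {w : R} (h : QB q w) {a b c d : ℤ}
    (e : (a : R) + b * w = c + d * w) : a = c ∧ b = d := by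
  have h1 : ((a - c : ℤ) : R) + ((b - d : ℤ) : R) * w = 0 := by
    push_cast
    linear_combination e
  obtain ⟨h2, h3⟩ := h.indep _ _ h1
  constructor <;> omega

lemma QB.exists_hom {q : ℤ} {R : Type*} [CommRing R] {w : R} (h : QB q w) {A : Type*} [CommRing A]
    (β : A) (hβ : β ^ 2 = β - q) : ∃ f : R →+* A, f w = β := by
  choose c0 c1 hc using h.gen
  have key : ∀ (x : R) (a b : ℤ), x = a + b * w → (c0 x : A) + c1 x * β = a + b * β := by
    intro x a b hx
    obtain ⟨h1, h2⟩ := h.unique ((hc x).symm.trans hx)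
    rw [h1, h2]
  refine ⟨{ toFun := fun x => (c0 x : A) + c1 x * β
            map_one' := ?_
            map_mul' := ?_
            map_zero' := ?_
            map_add' := ?_ }, ?_⟩
  · rw [key 1 1 0 (by simp)]; simp
  · intro x y
    have h1 : x * y = ((c0 x * c0 y - c1 x * c1 y * q : ℤ) : R) +
        ((c0 x * c1 y + c1 x * c0 y + c1 x * c1 y : ℤ) : R) * w := by
      nth_rewrite 1 [hc x]
      nth_rewrite 1 [hc y]
      push_cast
      linear_combination (c1 x * c1 y : R) * h.sq
    rw [key _ _ _ h1]
    push_cast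
    linear_combination (-(c1 x * c1 y : A)) * hβ
  · rw [key 0 0 0 (by simp)]; simp
  · intro x y
    have h1 : x + y = ((c0 x + c0 y : ℤ) : R) + ((c1 x + c1 y : ℤ) : R) * w := by
      nth_rewrite 1 [hc x]
      nth_rewrite 1 [hc y]
      push_cast
      ring
    rw [key _ _ _ h1]
    push_cast
    ring
  · show (c0 w : A) + c1 w * β = β
    rw [key w 0 1 (by simp)]; simp

variable {S : Type*} [CommRing S] [IsDedekindDomain S] [Module.Free ℤ S] [Module.Finite ℤ S]

lemma norm_ker {l : ℕ} [hl : Fact l.Prime] (f : S →+* ZMod l) : absNorm (RingHom.ker f) = l := by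
  have h1 : Function.Surjective f := ZMod.ringHom_surjective f
  have e := RingHom.quotientKerEquivOfSurjective h1
  rw [absNorm_apply, Submodule.cardQuot_apply]
  have h2 : Nat.card (S ⧸ RingHom.ker f) = Nat.card (ZMod l) := Nat.card_congr e.toEquiv
  rw [h2, Nat.card_zmod]

lemma natCast_mem_ker {l : ℕ} (f : S →+* ZMod l) : (l : S) ∈ RingHom.ker f := by
  rw [RingHom.mem_ker, map_natCast, ZMod.natCast_self]

/-- Splitting. -/
lemma QB.split {q : ℤ} {w : S} (h : QB q w) (h2 : Module.finrank ℤ S = 2) {l : ℕ}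
    [hl : Fact l.Prime] (β : ZMod l) (hβ : β ^ 2 = β - q) (hβ2 : 2 * β ≠ 1) (k : ℕ) :
    cnt S (l ^ k) = k + 1 := by
  obtain ⟨f, hf⟩ := h.exists_hom β hβ
  obtain ⟨g, hg⟩ := h.exists_hom (1 - β) (by linear_combination hβ)
  have nf := norm_ker f
  have ng := norm_ker g
  have pf : Prime (RingHom.ker f) := by
    have h1 : Irreducible (absNorm (RingHom.ker f)) := by rw [nf]; exact hl.out
    exact UniqueFactorizationMonoid.irreducible_iff_prime.mp (irreducible_of_irreducible_absNorm h1)
  have hne : RingHom.ker f ≠ RingHom.ker g := by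
    obtain ⟨b, hb⟩ := ZMod.natCast_zmod_surjective β
    have m1 : w - (b : S) ∈ RingHom.ker f := by
      rw [RingHom.mem_ker, map_sub, hf, map_natCast, hb, sub_self]
    intro he
    rw [he, RingHom.mem_ker, map_sub, hg, map_natCast, hb] at m1
    apply hβ2
    linear_combination -m1
  have pg : Prime (RingHom.ker g) := by
    have h1 : Irreducible (absNorm (RingHom.ker g)) := by rw [ng]; exact hl.out
    exact UniqueFactorizationMonoid.irreducible_iff_prime.mp (irreducible_of_irreducible_absNorm h1)
  refine cnt_split hl.out nf ng hne ?_ k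
  have d1 : RingHom.ker f ∣ span {(l : S)} := by
    rw [dvd_iff_le, span_singleton_le_iff_mem]; exact natCast_mem_ker f
  have d2 : RingHom.ker g ∣ span {(l : S)} := by
    rw [dvd_iff_le, span_singleton_le_iff_mem]; exact natCast_mem_ker g
  obtain ⟨J, hJ⟩ := d1
  rw [hJ] at d2
  rcases pg.dvd_or_dvd d2 with h3 | h3
  · exact absurd ((prime_dvd_prime_iff_eq pg pf).mp h3).symm hne
  · obtain ⟨J', hJ'⟩ := h3
    have h4 : absNorm (span {(l : S)}) = l ^ 2 := by rw [absNorm_span_natCast, h2]
    rw [hJ, hJ', map_mul, map_mul, nf, ng] at h4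
    have h5 : absNorm J' = 1 := by
      have h6 : l ^ 2 * absNorm J' = l ^ 2 * 1 := by
        rw [mul_one]; linear_combination h4
      exact Nat.eq_of_mul_eq_mul_left (pow_pos hl.out.pos 2) h6
    rw [absNorm_eq_one_iff] at h5
    rw [hJ, hJ', h5, mul_top]

/-- Inertness. -/
lemma QB.inert {q : ℤ} {w : S} (h : QB q w) (h2 : Module.finrank ℤ S = 2) {l : ℕ}
    [hl : Fact l.Prime] (hno : ∀ β : ZMod l, β ^ 2 ≠ β - q) (k : ℕ) :
    cnt S (l ^ k) = if Even k then 1 else 0 := by
  apply cnt_inert hl.out h2
  intro Q hQ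
  have hfin : Finite (S ⧸ Q) := by
    rw [← absNorm_ne_zero_iff, hQ]; exact hl.out.ne_zero
  have hft : Fintype (S ⧸ Q) := Fintype.ofFinite _
  have hcard : Fintype.card (S ⧸ Q) = l := by
    rw [← Nat.card_eq_fintype_card, ← Submodule.cardQuot_apply, ← absNorm_apply, hQ]
  let e := ZMod.ringEquivOfPrime (S ⧸ Q) hl.out hcard
  let f : S →+* ZMod l := (e.symm : (S ⧸ Q) →+* ZMod l).comp (Ideal.Quotient.mk Q)
  apply hno (f w)
  have h3 := congrArg f h.sq
  rw [map_pow, map_sub, map_intCast] at h3
  exact h3

/-- Ramification. -/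
lemma QB.ram {q : ℤ} {w : S} (h : QB q w) (h2 : Module.finrank ℤ S = 2) {l : ℕ}
    [hl : Fact l.Prime] (hlq : 4 * q - 1 = l) (k : ℕ) :
    cnt S (l ^ k) = 1 := by
  have hpp : span {(2 * w - 1 : S)} * span {(2 * w - 1 : S)} = span {(l : S)} := by
    rw [span_singleton_mul_span_singleton]
    have h3 : (2 * w - 1 : S) * (2 * w - 1) = -(l : S) := by
      have h4 : ((4 * q - 1 : ℤ) : S) = ((l : ℤ) : S) := by rw [hlq]
      push_cast at h4
      linear_combination 4 * h.sq - h4
    rw [h3, span_singleton_neg]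
  have hn : absNorm (span {(2 * w - 1 : S)}) = l := by
    have h3 := congrArg absNorm hpp
    rw [map_mul, absNorm_span_natCast, h2, ← pow_two] at h3
    exact Nat.pow_left_injective two_ne_zero h3
  exact cnt_ram hl.out hn hpp k

lemma legendre_recip {p l : ℕ} [hp : Fact p.Prime] [hl : Fact l.Prime] (hp4 : p % 4 = 3)
    (hl2 : l ≠ 2) : legendreSym l (-(p : ℤ)) = quadraticChar (ZMod p) (l : ZMod p) := by
  have hp2 : p ≠ 2 := by omega
  have h1 : legendreSym l (-(p : ℤ)) = legendreSym l (-1) * legendreSym l p := by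
    rw [← legendreSym.mul]; congr 1; ring
  have hlo : l % 2 = 1 := by
    rcases hl.out.eq_two_or_odd with h | h
    · exact absurd h hl2
    · exact h
  rw [h1, legendreSym.at_neg_one hl2, legendreSym.quadratic_reciprocity' hp2 hl2,
    ZMod.χ₄_eq_neg_one_pow hlo]
  have h2 : legendreSym p (l : ℤ) = quadraticChar (ZMod p) (l : ZMod p) := by
    unfold legendreSym; push_cast; rfl
  rw [h2, ← mul_assoc, ← pow_add]
  have h3 : Even (l / 2 + p / 2 * (l / 2)) := by
    have h4 : p / 2 % 2 = 1 := by omega
    have h5 : l / 2 + p / 2 * (l / 2) = (p / 2 + 1) * (l / 2) := by ring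
    rw [h5]
    apply Even.mul_right
    rw [Nat.even_iff]
    omega
  rw [h3.neg_one_pow, one_mul]

/-- The local factor in terms of the quadratic character. -/
theorem QB.local {p : ℕ} [hp : Fact p.Prime] {q : ℤ} (hq : 4 * q - 1 = p) (hp8 : p % 8 = 7)
    {w : S} (h : QB q w) (h2 : Module.finrank ℤ S = 2) {l : ℕ} (hl : l.Prime) (k : ℕ) :
    ((cnt S (l ^ k) : ℕ) : ℤ) =
      ∑ i ∈ Finset.range (k + 1), (quadraticChar (ZMod p) (l : ZMod p)) ^ i := by
  have : Fact l.Prime := ⟨hl⟩
  by_cases hlp : l = p
  · subst hlp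
    rw [h.ram h2 hq, ZMod.natCast_self, MulChar.map_zero, Finset.sum_range_succ']
    simp
  · have hl0 : (l : ZMod p) ≠ 0 := by
      rw [Ne, ZMod.natCast_eq_zero_iff]
      intro hd
      exact hlp ((Nat.prime_dvd_prime_iff_eq hp.out hl).mp hd).symm
    have hp0 : ((p : ℤ) : ZMod l) ≠ 0 := by
      rw [Ne, Int.cast_natCast, ZMod.natCast_eq_zero_iff]
      intro hd
      exact hlp ((Nat.prime_dvd_prime_iff_eq hl hp.out).mp hd)
    have hqZ : (4 * (q : ZMod l) - 1) = (p : ZMod l) := by
      have h4 : ((4 * q - 1 : ℤ) : ZMod l) = ((p : ℤ) : ZMod l) := by rw [hq]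
      push_cast at h4
      exact h4
    rcases quadraticChar_dichotomy hl0 with hc | hc
    · -- split
      have hroot : ∃ β : ZMod l, β ^ 2 = β - q ∧ 2 * β ≠ 1 := by
        by_cases hl2 : l = 2
        · subst hl2
          refine ⟨0, ?_, by simp⟩
          have hq2 : (q : ZMod 2) = 0 := by
            rw [ZMod.intCast_zmod_eq_zero_iff_dvd]
            push_cast
            omega
          rw [hq2]; simp
        · have hodd : (2 : ZMod l) ≠ 0 := by
            intro h0
            have : ((2 : ℕ) : ZMod l) = 0 := by exact_mod_cast h0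
            rw [ZMod.natCast_eq_zero_iff] at this
            exact hl2 ((Nat.prime_dvd_prime_iff_eq hl Nat.prime_two).mp this)
          have hsq : legendreSym l (-(p : ℤ)) = 1 := by
            rw [legendre_recip (by omega) hl2, hc]
          rw [legendreSym.eq_one_iff l (by push_cast; exact neg_ne_zero.mpr (by exact_mod_cast hp0))]
            at hsq
          obtain ⟨r, hr⟩ := hsq
          push_cast at hr
          refine ⟨(1 + r) / 2, ?_, ?_⟩
          · field_simp
            linear_combination (-1 : ZMod l) * hr + hqZ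
          · rw [mul_div_cancel₀ _ hodd]
            intro h0
            have hr0 : r = 0 := by linear_combination h0
            rw [hr0, mul_zero, neg_eq_zero] at hr
            exact hp0 (by exact_mod_cast hr)
      obtain ⟨β, hβ, hβ2⟩ := hroot
      rw [h.split h2 β hβ hβ2, hc]
      simp
    · have hno : ∀ β : ZMod l, β ^ 2 ≠ β - q := by
        intro β hβ
        have hsqβ : (2 * β - 1) * (2 * β - 1) = -(p : ZMod l) := by
          linear_combination 4 * hβ - hqZ
        by_cases hl2 : l = 2
        · subst hl2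
          have h3 : IsSquare (2 : ZMod p) := by
            rw [ZMod.exists_sq_eq_two_iff (by omega)]; right; exact hp8
          have h4 : quadraticChar (ZMod p) ((2 : ℕ) : ZMod p) = 1 := by
            rw [quadraticChar_one_iff_isSquare hl0]
            exact_mod_cast h3
          rw [h4] at hc
          norm_num at hc
        · have h3 : legendreSym l (-(p : ℤ)) = -1 := by
            rw [legendre_recip (by omega) hl2, hc]
          rw [legendreSym.eq_neg_one_iff] at h3
          apply h3
          exact ⟨2 * β - 1, by push_cast; exact hsqβ.symm⟩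
      rw [h.inert h2 hno, hc]
      induction k with
      | zero => simp
      | succ k ih =>
        rw [Finset.sum_range_succ, ← ih]
        rcases Nat.even_or_odd k with hk | hk
        · rw [if_pos hk, if_neg (by rw [Nat.not_even_iff_odd]; exact hk.add_one),
            (hk.add_one).neg_one_pow]
          simp
        · rw [if_neg (Nat.not_even_iff_odd.mpr hk), if_pos hk.add_one,
            (hk.add_one).neg_one_pow]
          simp

end Pool.Agent.Helper88.CN
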