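import Pool.Agent.Helper88.CN.Zeta

set_option autoImplicit false
set_option linter.unusedSectionVars false

open Module

namespace Pool.Agent.Helper88.CN

section generic
variable {R A : Type*} [CommRing R] [CommRing A] [Algebra R A] (b : Basis (Fin 2) R A)
  {w : A} {t n : R} (h0 : b 0 = 1) (h1 : b 1 = w)
  (hw : w * w = algebraMap R A t * w - algebraMap R A n)

include h0 h1 in
lemma repr_gen (x y : R) : b.repr (algebraMap R A x + algebraMap R A y * w) =
    Finsupp.single 0 x + Finsupp.single 1 y := by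
  have h2 : algebraMap R A x + algebraMap R A y * w = x • b 0 + y • b 1 := by
    rw [h0, h1, Algebra.smul_def, Algebra.smul_def, mul_one]
  rw [h2, map_add, map_smul, map_smul, b.repr_self, b.repr_self]
  simp

include h0 h1 hw in
lemma leftMul_gen (x y : R) : Algebra.leftMulMatrix b (algebraMap R A x + algebraMap R A y * w) =
    !![x, -(n * y); y, x + t * y] := by
  ext i j
  rw [Algebra.leftMulMatrix_eq_repr_mul]
  fin_cases j
  · show (b.repr ((algebraMap R A x + algebraMap R A y * w) * b 0)) i = _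
    rw [h0, mul_one, repr_gen b h0 h1]
    fin_cases i <;> simp
  · show (b.repr ((algebraMap R A x + algebraMap R A y * w) * b 1)) i = _
    have h2 : (algebraMap R A x + algebraMap R A y * w) * b 1 =
        algebraMap R A (-(n * y)) + algebraMap R A (x + t * y) * w := by
      rw [h1]
      simp only [map_neg, map_mul, map_add]
      linear_combination algebraMap R A y * hw
    rw [h2, repr_gen b h0 h1]
    fin_cases i <;> simp

include h0 h1 hw in
lemma trace_gen (x y : R) : Algebra.trace R A (algebraMap R A x + algebraMap R A y * w) =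
    2 * x + t * y := by
  rw [Algebra.trace_eq_matrix_trace b, leftMul_gen b h0 h1 hw, Matrix.trace_fin_two]
  simp
  ring

include h0 h1 hw in
lemma norm_gen (x y : R) : Algebra.norm R (algebraMap R A x + algebraMap R A y * w) =
    x ^ 2 + t * x * y + n * y ^ 2 := by
  rw [Algebra.norm_eq_matrix_det b, leftMul_gen b h0 h1 hw, Matrix.det_fin_two]
  simp
  ring

end generic

section field
variable {K : Type*} [Field K] [NumberField K] {p : ℕ} (hp0 : 0 < p)
  (hK : finrank ℚ K = 2) {s : K} (hs : s ^ 2 = -(p : K))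

include hp0 hs in
lemma indep_s (a b : ℚ) (h : (a : K) + b * s = 0) : a = 0 ∧ b = 0 := by
  by_cases hb : b = 0
  · subst hb
    simp only [Rat.cast_zero, zero_mul, add_zero, Rat.cast_eq_zero] at h
    exact ⟨h, rfl⟩
  · exfalso
    have hbK : (b : K) ≠ 0 := by exact_mod_cast hb
    have h1 : s = ((-a / b : ℚ) : K) := by
      push_cast
      field_simp
      linear_combination h
    rw [h1] at hs
    have h2 : (-a / b : ℚ) ^ 2 = -(p : ℚ) := by exact_mod_cast hs
    have h3 : (0 : ℚ) ≤ (-a / b : ℚ) ^ 2 := sq_nonneg _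
    have h4 : (0 : ℚ) < p := by exact_mod_cast hp0
    linarith

include hp0 hs hK in
lemma exists_basis : ∃ b : Basis (Fin 2) ℚ K, b 0 = 1 ∧ b 1 = s := by
  have hli : LinearIndependent ℚ ![(1 : K), s] := by
    rw [LinearIndependent.pair_iff]
    intro a b h
    apply indep_s hp0 hs
    rw [Algebra.smul_def, Algebra.smul_def, mul_one] at h
    exact h
  refine ⟨basisOfLinearIndependentOfCardEqFinrank hli (by simp [hK]), ?_, ?_⟩ <;> simp

lemma hw_s (hs : s ^ 2 = -(p : K)) :
    s * s = algebraMap ℚ K 0 * s - algebraMap ℚ K (p : ℚ) := by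
  rw [map_zero, map_natCast]
  linear_combination hs

include hp0 hs hK in
lemma exists_coord (x : K) : ∃ a b : ℚ, x = a + b * s := by
  obtain ⟨b, h0, h1⟩ := exists_basis hp0 hK hs
  refine ⟨b.repr x 0, b.repr x 1, ?_⟩
  have h2 := b.sum_repr x
  rw [Fin.sum_univ_two, h0, h1, Algebra.smul_def, Algebra.smul_def, mul_one] at h2
  exact h2.symm

include hp0 hs hK in
lemma norm_s (a b : ℚ) : Algebra.norm ℚ ((a : K) + b * s) = a ^ 2 + p * b ^ 2 := by
  obtain ⟨bs, h0, h1⟩ := exists_basis hp0 hK hs
  have := norm_gen bs h0 h1 (hw_s hs) a b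
  simp only [zero_mul, add_zero] at this
  exact this

include hp0 hs hK in
lemma trace_s (a b : ℚ) : Algebra.trace ℚ K ((a : K) + b * s) = 2 * a := by
  obtain ⟨bs, h0, h1⟩ := exists_basis hp0 hK hs
  have := trace_gen bs h0 h1 (hw_s hs) a b
  simp only [zero_mul, add_zero] at this
  exact this

lemma rat_int_of_integral {x : ℚ} (hx : IsIntegral ℤ x) : ∃ n : ℤ, (n : ℚ) = x := by
  obtain ⟨n, hn⟩ := IsIntegrallyClosed.isIntegral_iff.mp hx
  exact ⟨n, by simpa using hn⟩

include hK hs in
/-- Integral elements: twice the coordinates are integers, and a relation. -/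
lemma int_coord (hpp : p.Prime) {x : K} (hx : IsIntegral ℤ x) :
    ∃ A B N : ℤ, 2 * x = A + B * s ∧ A ^ 2 + p * B ^ 2 = 4 * N ∧
      Algebra.norm ℚ x = N := by
  have hp0 := hpp.pos
  obtain ⟨a, b, hab⟩ := exists_coord hp0 hK hs x
  have ht : IsIntegral ℤ (Algebra.trace ℚ K x) := Algebra.isIntegral_trace hx
  have hn : IsIntegral ℤ (Algebra.norm ℚ x) := Algebra.isIntegral_norm ℚ hx
  obtain ⟨A, hA⟩ := rat_int_of_integral ht
  obtain ⟨N, hN⟩ := rat_int_of_integral hn
  rw [hab, trace_s hp0 hK hs] at hA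
  have hN' := hN
  rw [hab, norm_s hp0 hK hs] at hN
  -- p * (2b) is an integer
  have h1 : IsIntegral ℤ ((p : ℚ) * (2 * b)) := by
    apply IsIntegral.of_pow two_pos
    have h2 : ((p : ℚ) * (2 * b)) ^ 2 = ((p * (4 * N - A ^ 2) : ℤ) : ℚ) := by
      push_cast
      rw [hA, hN]
      ring
    rw [h2]
    exact isIntegral_algebraMap (R := ℤ) (A := ℚ)
  obtain ⟨c, hc⟩ := rat_int_of_integral h1
  have h2 : c ^ 2 = p * (4 * N - A ^ 2) := by
    have h3 : ((c ^ 2 : ℤ) : ℚ) = ((p * (4 * N - A ^ 2) : ℤ) : ℚ) := by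
      push_cast
      rw [hc, hA, hN]
      ring
    exact_mod_cast h3
  have h3 : (p : ℤ) ∣ c := by
    have hpi : Prime (p : ℤ) := Nat.prime_iff_prime_int.mp hpp
    exact hpi.dvd_of_dvd_pow ⟨_, h2⟩
  obtain ⟨B, hB⟩ := h3
  have hpQ : (p : ℚ) ≠ 0 := by exact_mod_cast hpp.ne_zero
  have h4 : (B : ℚ) = 2 * b := by
    rw [hB] at hc
    push_cast at hc
    exact mul_left_cancel₀ hpQ hc
  refine ⟨A, B, N, ?_, ?_, hN'.symm⟩
  · rw [hab]
    have h5 : ((A : ℤ) : K) = ((A : ℚ) : K) := by push_cast; rfl
    have h6 : ((B : ℤ) : K) = ((B : ℚ) : K) := by push_cast; rfl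
    rw [h5, h6, hA, h4]
    push_cast
    ring
  · have h5 : ((A ^ 2 + p * B ^ 2 : ℤ) : ℚ) = ((4 * N : ℤ) : ℚ) := by
      push_cast
      rw [hA, h4, hN]
      ring
    exact_mod_cast h5

include hK hs in
/-- The ring of integers. -/
theorem exists_QB (hpp : p.Prime) {q : ℤ} (hq : 4 * q - 1 = p) :
    ∃ w : NumberField.RingOfIntegers K, QB q w ∧ 2 * (w : K) = 1 + s := by
  have hp0 := hpp.pos
  have hqK : (4 * (q : K) - 1) = p := by
    have : ((4 * q - 1 : ℤ) : K) = ((p : ℤ) : K) := by rw [hq]
    push_cast at this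
    exact this
  have hwint : IsIntegral ℤ ((1 + s) / 2 : K) := by
    refine ⟨Polynomial.X ^ 2 - Polynomial.X + Polynomial.C q, ?_, ?_⟩
    · have : (Polynomial.X ^ 2 - Polynomial.X + Polynomial.C q : Polynomial ℤ) =
        Polynomial.X ^ 2 + (-Polynomial.X + Polynomial.C q) := by ring
      rw [this]
      apply Polynomial.monic_X_pow_add
      compute_degree!
    · simp only [Polynomial.eval₂_add, Polynomial.eval₂_sub, Polynomial.eval₂_pow,
        Polynomial.eval₂_X, Polynomial.eval₂_C]
      have h1 : (algebraMap ℤ K) q = (q : K) := rfl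
      rw [h1]
      field_simp
      linear_combination hs + hqK
  obtain ⟨w, hw⟩ : ∃ w : NumberField.RingOfIntegers K, (w : K) = (1 + s) / 2 :=
    ⟨⟨_, hwint⟩, rfl⟩
  have h2w : 2 * (w : K) = 1 + s := by rw [hw]; field_simp
  refine ⟨w, ⟨?_, ?_, ?_⟩, h2w⟩
  · apply NumberField.RingOfIntegers.ext
    push_cast
    have h3 : s = 2 * (w : K) - 1 := by linear_combination -h2w
    rw [h3] at hs
    have h4 : (4 : K) * ((w : K) ^ 2) = 4 * ((w : K) - q) := by
      linear_combination hs + hqK
    exact mul_left_cancel₀ (by norm_num) h4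
  · intro x
    obtain ⟨A, B, N, h1, h2, _⟩ := int_coord hK hs hpp (NumberField.RingOfIntegers.isIntegral_coe x)
    have hpar : 2 ∣ (A - B) := by
      have h3 : A ^ 2 + (4 * q - 1) * B ^ 2 = 4 * N := by rw [hq]; exact h2
      have h4 : A ^ 2 - B ^ 2 = 4 * (N - q * B ^ 2) := by linear_combination h3
      have h5 : (A - B) * (A + B) = 4 * (N - q * B ^ 2) := by linear_combination h4
      rcases Int.even_or_odd (A - B) with h | h
      · exact h.two_dvd
      · exfalso
        have h6 : Odd (A + B) := by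
          have : A + B = (A - B) + 2 * B := by ring
          rw [this]
          exact h.add_even (even_two_mul B)
        have h7 := h.mul h6
        rw [h5] at h7
        have h8 : Even (4 * (N - q * B ^ 2)) := ⟨2 * (N - q * B ^ 2), by ring⟩
        exact (Int.not_even_iff_odd.mpr h7) h8
    obtain ⟨C, hC⟩ := hpar
    refine ⟨C, B, ?_⟩
    apply NumberField.RingOfIntegers.ext
    push_cast
    have h3 : (A : K) - B = 2 * C := by
      have : ((A - B : ℤ) : K) = ((2 * C : ℤ) : K) := by rw [hC]
      push_cast at this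
      exact this
    have h4 : (2 : K) * (x : K) = 2 * (C + B * w) := by
      linear_combination h1 + h3 - B * h2w
    exact mul_left_cancel₀ two_ne_zero h4
  · intro a b h
    have h3 : ((a : ℤ) : K) + b * (w : K) = 0 := by
      have := congrArg (fun x : NumberField.RingOfIntegers K => (x : K)) h
      push_cast at this
      exact this
    have h4 : (((2 * a + b : ℤ) : ℚ) : K) + ((b : ℤ) : ℚ) * s = 0 := by
      push_cast
      linear_combination 2 * h3 - b * h2w
    obtain ⟨h5, h6⟩ := indep_s hp0 hs _ _ h4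
    have h7 : b = 0 := by exact_mod_cast h6
    have h8 : 2 * a + b = 0 := by exact_mod_cast h5
    constructor
    · omega
    · exact h7

end field

end Pool.Agent.Helper88.CN
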