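import Pool.Agent.Helper88.CN.Defs
import Pool.Agent.Helper88.CN.LOne

set_option autoImplicit false
set_option linter.unusedSectionVars false

open Finset

namespace Pool.Agent.Helper88.CN

variable (p : ℕ) [hp : Fact p.Prime]

/-- Quadratic residues. -/
noncomputable def QR : Finset ℕ := (Finset.range p).filter (fun r => legendreSym p (r : ℤ) = 1)

lemma leg_qc (r : ℕ) : legendreSym p (r : ℤ) = quadraticChar (ZMod p) (r : ZMod p) := by
  unfold legendreSym; push_cast; rfl

lemma mem_QR {r : ℕ} : r ∈ QR p ↔ r < p ∧ legendreSym p (r : ℤ) = 1 := by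
  unfold QR; rw [mem_filter, mem_range]

lemma image_sq (hp2 : p ≠ 2) : (Finset.Icc 1 ((p - 1) / 2)).image (fun k => k ^ 2 % p) = QR p := by
  have hodd : p % 2 = 1 := by
    rcases hp.out.eq_two_or_odd with h | h
    · exact absurd h hp2
    · exact h
  ext r
  rw [mem_image, mem_QR]
  constructor
  · rintro ⟨k, hk, rfl⟩
    rw [mem_Icc] at hk
    refine ⟨Nat.mod_lt _ hp.out.pos, ?_⟩
    have hk0 : (k : ZMod p) ≠ 0 := by
      rw [Ne, ZMod.natCast_eq_zero_iff]
      intro hd
      have := Nat.le_of_dvd (by omega) hd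
      omega
    rw [leg_qc]
    have h1 : ((k ^ 2 % p : ℕ) : ZMod p) = (k : ZMod p) ^ 2 := by
      rw [ZMod.natCast_mod]; push_cast; rfl
    rw [h1]
    exact quadraticChar_sq_one' hk0
  · rintro ⟨hr, hr1⟩
    rw [leg_qc] at hr1
    have hr0 : (r : ZMod p) ≠ 0 := by
      intro h0
      rw [h0, MulChar.map_zero] at hr1
      exact zero_ne_one hr1
    rw [quadraticChar_one_iff_isSquare hr0] at hr1
    obtain ⟨x, hx⟩ := hr1
    have hx0 : x ≠ 0 := by
      rintro rfl
      rw [mul_zero] at hx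
      exact hr0 hx
    refine ⟨x.valMinAbs.natAbs, ?_, ?_⟩
    · rw [mem_Icc]
      have h1 := ZMod.natAbs_valMinAbs_le x
      have h2 : x.valMinAbs.natAbs ≠ 0 := by
        rw [Int.natAbs_ne_zero, Ne, ZMod.valMinAbs_eq_zero]
        exact hx0
      omega
    · show x.valMinAbs.natAbs ^ 2 % p = r
      have h3 : ((x.valMinAbs.natAbs ^ 2 : ℕ) : ZMod p) = (r : ZMod p) := by
        have h4 : ((x.valMinAbs.natAbs ^ 2 : ℕ) : ZMod p) = ((x.valMinAbs ^ 2 : ℤ) : ZMod p) := by
          have h5 : ((x.valMinAbs.natAbs ^ 2 : ℕ) : ℤ) = x.valMinAbs ^ 2 := by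
            push_cast
            exact sq_abs _
          rw [← h5]
          rw [Int.cast_natCast]
        rw [h4]
        push_cast
        rw [hx, sq]
      have h4 := (ZMod.natCast_eq_natCast_iff' _ _ _).mp h3
      rw [h4, Nat.mod_eq_of_lt hr]

lemma injOn_sq : Set.InjOn (fun k => k ^ 2 % p) (Finset.Icc 1 ((p - 1) / 2) : Finset ℕ) := by
  intro a ha b hb hab
  rw [mem_coe, mem_Icc] at ha hb
  have h1 : ((a ^ 2 : ℕ) : ZMod p) = ((b ^ 2 : ℕ) : ZMod p) :=
    (ZMod.natCast_eq_natCast_iff' _ _ _).mpr hab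
  push_cast at h1
  have h2 : ((a : ZMod p) - b) * ((a : ZMod p) + b) = 0 := by linear_combination h1
  rcases mul_eq_zero.mp h2 with h | h
  · have h3 : (a : ZMod p) = (b : ZMod p) := by linear_combination h
    have h4 := (ZMod.natCast_eq_natCast_iff' _ _ _).mp h3
    rwa [Nat.mod_eq_of_lt (by omega), Nat.mod_eq_of_lt (by omega)] at h4
  · exfalso
    have h3 : ((a + b : ℕ) : ZMod p) = 0 := by push_cast; exact h
    rw [ZMod.natCast_eq_zero_iff] at h3
    have := Nat.le_of_dvd (by omega) h3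
    omega

lemma sum_sq {M : Type*} [AddCommMonoid M] (hp2 : p ≠ 2) (f : ℕ → M) :
    ∑ k ∈ Finset.Icc 1 ((p - 1) / 2), f (k ^ 2 % p) = ∑ r ∈ QR p, f r := by
  rw [← image_sq p hp2, Finset.sum_image (injOn_sq p)]

lemma prod_sq {M : Type*} [CommMonoid M] (hp2 : p ≠ 2) (f : ℕ → M) :
    ∏ k ∈ Finset.Icc 1 ((p - 1) / 2), f (k ^ 2 % p) = ∏ r ∈ QR p, f r := by
  rw [← image_sq p hp2, Finset.prod_image (injOn_sq p)]

lemma card_QR (hp2 : p ≠ 2) : (QR p).card = (p - 1) / 2 := by
  rw [← image_sq p hp2, Finset.card_image_of_injOn (injOn_sq p), Nat.card_Icc]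
  omega

/-- Twice the sum of the quadratic residues. -/
lemma two_sum_QR : 2 * (∑ r ∈ QR p, (r : ℝ)) = (p : ℝ) * (p - 1) / 2 +
    ∑ x : ZMod p, (x.val : ℝ) * rc p x := by
  have h1 : ∑ x : ZMod p, (x.val : ℝ) * rc p x = ∑ r ∈ Finset.range p, (r : ℝ) * rc p r := by
    apply Finset.sum_bij (fun (x : ZMod p) _ => x.val)
    · intro x _; exact Finset.mem_range.mpr (ZMod.val_lt x)
    · intro x _ y _ h; exact ZMod.val_injective p h
    · intro k hk
      exact ⟨(k : ZMod p), Finset.mem_univ _, ZMod.val_natCast_of_lt (Finset.mem_range.mp hk)⟩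
    · intro x _
      rw [ZMod.natCast_zmod_val]
  have h2 : ∑ r ∈ Finset.range p, (r : ℝ) = (p : ℝ) * (p - 1) / 2 := by
    have := Finset.sum_range_id_mul_two p
    have h3 : ((∑ i ∈ Finset.range p, i : ℕ) : ℝ) * 2 = p * (p - 1) := by
      have h4 := congrArg (fun n : ℕ => (n : ℝ)) this
      push_cast [Nat.cast_sub hp.out.one_lt.le] at h4
      push_cast
      exact h4
    push_cast at h3
    linarith
  rw [h1, ← h2, ← Finset.sum_add_distrib]
  unfold QR
  rw [Finset.mul_sum, Finset.sum_filter]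
  apply Finset.sum_congr rfl
  intro r hr
  rw [leg_qc]
  by_cases hr0 : r = 0
  · subst hr0; simp
  · have hrz : (r : ZMod p) ≠ 0 := by
      rw [Ne, ZMod.natCast_eq_zero_iff]
      intro hd
      have := Nat.le_of_dvd (by omega) hd
      have := Finset.mem_range.mp hr
      omega
    rcases quadraticChar_dichotomy hrz with h | h
    · rw [if_pos h, rc, h]; push_cast; ring
    · rw [if_neg (by rw [h]; norm_num), rc, h]; push_cast; ring

lemma AA_zero (hp4 : p % 4 = 1) : ∑ x : ZMod p, (x.val : ℝ) * rc p x = 0 := by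
  have hp2 : p ≠ 2 := by omega
  have hm1 : quadraticChar (ZMod p) (-1) = 1 := by
    rw [quadraticChar_neg_one (by rw [ZMod.ringChar_zmod_n]; exact hp2), ZMod.card]
    exact ZMod.χ₄_nat_one_mod_four hp4
  have h1 : ∑ x : ZMod p, (x.val : ℝ) * rc p x = ∑ x : ZMod p, ((p : ℝ) - x.val) * rc p x := by
    rw [← Equiv.sum_comp (Equiv.neg (ZMod p))]
    apply Finset.sum_congr rfl
    intro x _
    rw [Equiv.neg_apply]
    have h2 : rc p (-x) = rc p x := by
      unfold rc
      rw [← neg_one_mul x, map_mul, hm1, one_mul]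
    rw [h2]
    by_cases hx : x = 0
    · subst hx; rw [rc_zero]; simp
    · have hv : (((-x).val : ℕ) : ℝ) = p - x.val := by
        have h3 : (-x).val = p - x.val := by
          have := ZMod.neg_val x
          rw [if_neg hx] at this
          exact this
        rw [h3, Nat.cast_sub (ZMod.val_lt x).le]
      rw [hv]
  have h2 : ∑ x : ZMod p, ((p : ℝ) - x.val) * rc p x = p * ∑ x : ZMod p, rc p x -
      ∑ x : ZMod p, (x.val : ℝ) * rc p x := by
    rw [Finset.mul_sum, ← Finset.sum_sub_distrib]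
    apply Finset.sum_congr rfl
    intro x _
    ring
  rw [h2, rc_sum p hp2, mul_zero, zero_sub] at h1
  linarith

/-- The sum of squares. -/
lemma sum_squares (hp2 : p ≠ 2) : 24 * ∑ k ∈ Finset.Icc 1 ((p - 1) / 2), k ^ 2 = p * (p ^ 2 - 1) := by
  have hodd : p % 2 = 1 := by
    rcases hp.out.eq_two_or_odd with h | h
    · exact absurd h hp2
    · exact h
  obtain ⟨m, hm⟩ : ∃ m, p = 2 * m + 1 := ⟨p / 2, by omega⟩
  have h1 : ∀ m : ℕ, 6 * ∑ k ∈ Finset.Icc 1 m, k ^ 2 = m * (m + 1) * (2 * m + 1) := by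
    intro m
    induction m with
    | zero => simp
    | succ m ih =>
      rw [Finset.sum_Icc_succ_top (by omega), mul_add, ih]
      ring
  have h2 : (p - 1) / 2 = m := by omega
  rw [h2]
  have h3 : 24 * ∑ k ∈ Finset.Icc 1 m, k ^ 2 = 4 * (6 * ∑ k ∈ Finset.Icc 1 m, k ^ 2) := by ring
  rw [h3, h1, hm]
  have h4 : (2 * m + 1) ^ 2 - 1 = 4 * (m * (m + 1)) := by
    have : (2 * m + 1) ^ 2 = 4 * (m * (m + 1)) + 1 := by ring
    omega
  rw [h4]
  ring

end Pool.Agent.Helper88.CN
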