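import Pool.Agent.Helper88.CN.Res

set_option autoImplicit false
set_option linter.unusedSectionVars false

open Finset

namespace Pool.Agent.Helper88.CN

variable (p : ℕ) [hp : Fact p.Prime]

/-- The sign of the factor at the residue `r`. -/
noncomputable def sg (e : ℤ) (r : ℕ) : ℝ :=
  if (e = 1 ∧ 12 * r < p) ∨ (e = -1 ∧ 11 * p < 12 * r) then 1 else -1

lemma sg_pos {e : ℤ} (he : e = 1 ∨ e = -1) (hp5 : 5 ≤ p) {r : ℕ} (hr0 : 0 < r) (hr : r < p) :
    0 < sg p e r * Real.sin (Real.pi * e / 12 - Real.pi * r / p) := by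
  have hpi := Real.pi_pos
  have hp0 : (0 : ℝ) < p := by exact_mod_cast hp.out.pos
  have hr0' : (0 : ℝ) < r := by exact_mod_cast hr0
  have hr' : (r : ℝ) < p := by exact_mod_cast hr
  have hq0 : 0 < (r : ℝ) / p := div_pos hr0' hp0
  have hq1 : (r : ℝ) / p < 1 := (div_lt_one hp0).mpr hr'
  have hcop : Nat.Coprime 12 p := by
    rw [Nat.coprime_comm, Nat.Prime.coprime_iff_not_dvd hp.out]
    intro hd
    have : p ∣ 2 * 2 * 3 := by simpa using hd
    rcases (Nat.Prime.dvd_mul hp.out).mp this with h | h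
    · rcases (Nat.Prime.dvd_mul hp.out).mp h with h | h <;>
      · have := Nat.le_of_dvd (by norm_num) h; omega
    · have := Nat.le_of_dvd (by norm_num) h; omega
  have hrw : Real.pi * r / p = Real.pi * (r / p) := by ring
  rw [hrw]
  unfold sg
  rcases he with rfl | rfl
  · by_cases h : 12 * r < p
    · rw [if_pos (Or.inl ⟨rfl, h⟩), one_mul]
      have h1 : 12 * ((r : ℝ) / p) < 1 := by
        rw [← mul_div_assoc, div_lt_one hp0]; exact_mod_cast h
      apply Real.sin_pos_of_pos_of_lt_pi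
      · push_cast; nlinarith
      · push_cast; nlinarith
    · rw [if_neg (by
        rintro (⟨_, h2⟩ | ⟨h2, _⟩)
        · exact h h2
        · norm_num at h2), neg_one_mul]
      have h0 : p < 12 * r := by
        rcases lt_or_eq_of_le (not_lt.mp h) with h1 | h1
        · exact h1
        · exfalso
          have : 12 ∣ p := ⟨r, h1⟩
          have := Nat.eq_one_of_dvd_coprimes hcop (dvd_refl 12) this
          omega
      have h1 : 1 < 12 * ((r : ℝ) / p) := by
        rw [← mul_div_assoc, one_lt_div hp0]; exact_mod_cast h0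
      have h2 := Real.sin_neg_of_neg_of_neg_pi_lt
        (x := Real.pi * ((1 : ℤ) : ℝ) / 12 - Real.pi * (r / p)) (by push_cast; nlinarith)
        (by push_cast; nlinarith)
      linarith
  · have hneg : Real.pi * ((-1 : ℤ) : ℝ) / 12 - Real.pi * (r / p) =
        -(Real.pi / 12 + Real.pi * (r / p)) := by push_cast; ring
    rw [hneg, Real.sin_neg]
    by_cases h : 11 * p < 12 * r
    · rw [if_pos (Or.inr ⟨rfl, h⟩), one_mul]
      have h1 : 11 < 12 * ((r : ℝ) / p) := by
        rw [← mul_div_assoc, lt_div_iff₀ hp0]; exact_mod_cast h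
      have h2 : Real.sin (Real.pi / 12 + Real.pi * (r / p)) =
          -Real.sin (Real.pi / 12 + Real.pi * (r / p) - Real.pi) := by
        rw [Real.sin_sub_pi, neg_neg]
      rw [h2, neg_neg]
      apply Real.sin_pos_of_pos_of_lt_pi
      · nlinarith
      · nlinarith
    · rw [if_neg (by
        rintro (⟨h2, _⟩ | ⟨_, h2⟩)
        · norm_num at h2
        · exact h h2)]
      have h0 : 12 * r < 11 * p := by
        rcases lt_or_eq_of_le (not_lt.mp h) with h1 | h1
        · exact h1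
        · exfalso
          have h3 : 12 ∣ 11 * p := ⟨r, h1.symm⟩
          have h4 : 12 ∣ p := (Nat.Coprime.dvd_of_dvd_mul_left (by norm_num) h3)
          have := Nat.eq_one_of_dvd_coprimes hcop (dvd_refl 12) h4
          omega
      have h1 : 12 * ((r : ℝ) / p) < 11 := by
        rw [← mul_div_assoc, div_lt_iff₀ hp0]; exact_mod_cast h0
      have h2 : 0 < Real.sin (Real.pi / 12 + Real.pi * (r / p)) := by
        apply Real.sin_pos_of_pos_of_lt_pi
        · nlinarith
        · nlinarith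
      linarith

lemma sin_shift (e : ℤ) (n : ℕ) : Real.sin (Real.pi * e / 12 - Real.pi * n / p) =
    (-1) ^ (n / p) * Real.sin (Real.pi * e / 12 - Real.pi * ((n % p : ℕ) : ℝ) / p) := by
  have hp0 : (p : ℝ) ≠ 0 := by exact_mod_cast hp.out.ne_zero
  have h1 : (n : ℝ) = p * ((n / p : ℕ) : ℝ) + ((n % p : ℕ) : ℝ) := by
    exact_mod_cast (Nat.div_add_mod n p).symm
  have h2 : Real.pi * e / 12 - Real.pi * n / p =
      (Real.pi * e / 12 - Real.pi * ((n % p : ℕ) : ℝ) / p) - ((n / p : ℕ) : ℝ) * Real.pi := by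
    rw [h1]
    field_simp
    ring
  rw [h2, Real.sin_sub_nat_mul_pi]

lemma factor_eq (e : ℤ) (n : ℂ) : Complex.exp (2 * Real.pi * Complex.I * e / 12) -
    Complex.exp (2 * Real.pi * Complex.I * n / p) =
    Complex.exp (Complex.I * (Real.pi * e / 12 + Real.pi * n / p)) *
      (2 * Complex.I * Complex.sin (Real.pi * e / 12 - Real.pi * n / p)) := by
  have h1 : ∀ z : ℂ, 2 * Complex.I * Complex.sin z =
      Complex.exp (z * Complex.I) - Complex.exp (-z * Complex.I) := by
    intro z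
    rw [Complex.sin]
    have : 2 * Complex.I * ((Complex.exp (-z * Complex.I) - Complex.exp (z * Complex.I)) *
      Complex.I / 2) = (Complex.I * Complex.I) *
        (Complex.exp (-z * Complex.I) - Complex.exp (z * Complex.I)) := by ring
    rw [this, Complex.I_mul_I]
    ring
  rw [h1, mul_sub, ← Complex.exp_add, ← Complex.exp_add]
  congr 2 <;> ring

/-- The closed form of the product. -/
lemma Sp_eq (e : ℤ) : Sp p (Complex.exp (2 * Real.pi * Complex.I * e / 12)) =
    Complex.exp (Complex.I * (((p - 1) / 2 : ℕ) * (Real.pi * e / 12) +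
      Real.pi * ((∑ k ∈ Finset.Icc 1 ((p - 1) / 2), k ^ 2 : ℕ) : ℂ) / p)) *
      (2 * Complex.I) ^ ((p - 1) / 2) *
      ((∏ k ∈ Finset.Icc 1 ((p - 1) / 2),
        Real.sin (Real.pi * e / 12 - Real.pi * ((k ^ 2 : ℕ) : ℝ) / p) : ℝ) : ℂ) := by
  unfold Sp
  have h1 : ∀ k ∈ Finset.Icc 1 ((p - 1) / 2),
      Complex.exp (2 * Real.pi * Complex.I * e / 12) -
        Complex.exp (2 * Real.pi * Complex.I * (k : ℂ) ^ 2 / p) =
      Complex.exp (Complex.I * (Real.pi * e / 12 + Real.pi * (k : ℂ) ^ 2 / p)) *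
        ((2 * Complex.I) * ((Real.sin (Real.pi * e / 12 - Real.pi * ((k ^ 2 : ℕ) : ℝ) / p) : ℝ) : ℂ)) := by
    intro k _
    rw [factor_eq]
    push_cast
    rfl
  rw [Finset.prod_congr rfl h1, Finset.prod_mul_distrib, Finset.prod_mul_distrib,
    Finset.prod_const, Nat.card_Icc, ← Complex.exp_sum, Nat.add_sub_cancel, ← mul_assoc]
  congr 2
  · congr 1
    rw [← Finset.mul_sum, Finset.sum_add_distrib, Finset.sum_const, Nat.card_Icc,
      Nat.add_sub_cancel, nsmul_eq_mul]
    congr 2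
    push_cast
    rw [← Finset.sum_div, ← Finset.mul_sum]
  · push_cast
    rfl

/-- The number of residues with a negative factor. -/
noncomputable def Gn (e : ℤ) : ℕ := ((QR p).filter (fun r => sg p e r = -1)).card

/-- The sign of the real product. -/
lemma prod_sin (e : ℤ) (he : e = 1 ∨ e = -1) (hp5 : 5 ≤ p) : ∃ R : ℝ, 0 < R ∧
    ∏ k ∈ Finset.Icc 1 ((p - 1) / 2),
        Real.sin (Real.pi * e / 12 - Real.pi * ((k ^ 2 : ℕ) : ℝ) / p) =
      (-1) ^ ((∑ k ∈ Finset.Icc 1 ((p - 1) / 2), k ^ 2 / p) + Gn p e) * R := by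
  have h1 : ∀ k : ℕ, Real.sin (Real.pi * e / 12 - Real.pi * ((k ^ 2 : ℕ) : ℝ) / p) =
      (-1) ^ (k ^ 2 / p) * (sg p e (k ^ 2 % p) * (sg p e (k ^ 2 % p) *
        Real.sin (Real.pi * e / 12 - Real.pi * ((k ^ 2 % p : ℕ) : ℝ) / p))) := by
    intro k
    rw [sin_shift]
    congr 1
    have h2 : sg p e (k ^ 2 % p) * sg p e (k ^ 2 % p) = 1 := by
      unfold sg; split_ifs <;> norm_num
    rw [← mul_assoc, h2, one_mul]
  simp_rw [h1]
  rw [Finset.prod_mul_distrib, Finset.prod_mul_distrib, Finset.prod_pow_eq_pow_sum]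
  refine ⟨∏ k ∈ Finset.Icc 1 ((p - 1) / 2), (sg p e (k ^ 2 % p) *
        Real.sin (Real.pi * e / 12 - Real.pi * ((k ^ 2 % p : ℕ) : ℝ) / p)), ?_, ?_⟩
  · apply Finset.prod_pos
    intro k hk
    rw [Finset.mem_Icc] at hk
    apply sg_pos p he hp5 _ (Nat.mod_lt _ hp.out.pos)
    rw [Nat.pos_iff_ne_zero, Ne, ← Nat.dvd_iff_mod_eq_zero]
    intro hd
    have h3 := hp.out.dvd_of_dvd_pow hd
    have := Nat.le_of_dvd (by omega) h3
    omega
  · rw [prod_sq p (by omega) (fun r => sg p e r), pow_add, ← mul_assoc]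
    congr 2
    unfold Gn
    rw [Finset.card_filter, ← Finset.prod_pow_eq_pow_sum]
    apply Finset.prod_congr rfl
    intro r _
    unfold sg
    split_ifs with h2 h3 h4
    · norm_num at h3
    · simp
    · simp
    · simp at h4

end Pool.Agent.Helper88.CN
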