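import Pool.Agent.Helper88.CN.QRing
import Pool.Agent.Helper88.CN.LVal

set_option autoImplicit false
set_option linter.unusedSectionVars false

open Ideal Filter Topology

namespace Pool.Agent.Helper88.CN

section count
variable (p : ℕ) [hp : Fact p.Prime]
variable (S : Type*) [CommRing S] [IsDedekindDomain S] [Module.Free ℤ S] [Module.Finite ℤ S]

/-- Ideal counts as an arithmetic function. -/
noncomputable def aC : ArithmeticFunction ℂ := ⟨fun n => if n = 0 then 0 else (cnt S n : ℂ), by simp⟩

/-- The character as an arithmetic function. -/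
noncomputable def aX : ArithmeticFunction ℂ := ⟨fun n => qc p (n : ZMod p), by
  rw [Nat.cast_zero]; exact MulChar.map_zero _⟩

lemma aC_apply {n : ℕ} (hn : n ≠ 0) : aC S n = (cnt S n : ℂ) := by
  show (if n = 0 then 0 else (cnt S n : ℂ)) = _
  rw [if_neg hn]

lemma aX_apply (n : ℕ) : aX p n = qc p (n : ZMod p) := rfl

lemma aC_mult : (aC S).IsMultiplicative := by
  rw [ArithmeticFunction.IsMultiplicative.iff_ne_zero]
  constructor
  · rw [aC_apply S one_ne_zero, cnt_one]; simp
  · intro m n hm hn h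
    rw [aC_apply S hm, aC_apply S hn, aC_apply S (mul_ne_zero hm hn), cnt_mul h hm hn]
    push_cast
    rfl

lemma aX_mult : (aX p).IsMultiplicative := by
  rw [ArithmeticFunction.IsMultiplicative.iff_ne_zero]
  constructor
  · rw [aX_apply]; simp
  · intro m n _ _ _
    rw [aX_apply, aX_apply, aX_apply]
    push_cast
    rw [map_mul]

theorem aC_eq {q : ℤ} (hq : 4 * q - 1 = p) (hp8 : p % 8 = 7)
    {w : S} (h : QB q w) (h2 : Module.finrank ℤ S = 2) :
    aC S = ((ArithmeticFunction.zeta : ArithmeticFunction ℕ) : ArithmeticFunction ℂ) * aX p := by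
  rw [(aC_mult S).eq_iff_eq_on_prime_powers _ _
    (ArithmeticFunction.isMultiplicative_zeta.natCast.mul (aX_mult p))]
  intro l k hl
  rw [aC_apply S (pow_ne_zero _ hl.ne_zero), ArithmeticFunction.coe_zeta_mul_apply,
    Nat.sum_divisors_prime_pow hl]
  have h1 := congrArg (fun z : ℤ => (z : ℂ)) (h.local hq hp8 h2 hl k)
  push_cast at h1
  rw [h1]
  apply Finset.sum_congr rfl
  intro i _
  rw [aX_apply, Nat.cast_pow, map_pow, qc_apply]

lemma LSeries_aX (s : ℝ) : LSeries (fun n => aX p n) (s : ℂ) = ((Fs p s : ℝ) : ℂ) := by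
  unfold LSeries Fs
  rw [Complex.ofReal_tsum]
  apply tsum_congr
  intro n
  by_cases hn : n = 0
  · subst hn
    rw [LSeries.term_zero]
    simp [rc_zero]
  · rw [LSeries.term_of_ne_zero hn, aX_apply, ← rc_qc]
    push_cast
    rw [Real.rpow_neg (Nat.cast_nonneg n), div_eq_mul_inv]
    congr 1
    push_cast
    rw [Complex.ofReal_cpow (Nat.cast_nonneg n)]
    simp

end count

theorem dedekind_eq {p : ℕ} [hp : Fact p.Prime] {K : Type*} [Field K] [NumberField K]
    {q : ℤ} (hq : 4 * q - 1 = p) (hp8 : p % 8 = 7) {w : NumberField.RingOfIntegers K}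
    (h : QB q w) (h2 : Module.finrank ℤ (NumberField.RingOfIntegers K) = 2) {s : ℝ} (hs : 1 < s) :
    NumberField.dedekindZeta K s = riemannZeta s * ((Fs p s : ℝ) : ℂ) := by
  have hs' : 1 < (s : ℂ).re := by simpa using hs
  have h1 : NumberField.dedekindZeta K s =
      LSeries (fun n => aC (NumberField.RingOfIntegers K) n) s := by
    unfold NumberField.dedekindZeta
    apply LSeries_congr
    intro n hn
    rw [aC_apply _ hn]
    rfl
  rw [h1, aC_eq p (NumberField.RingOfIntegers K) hq hp8 h h2]
  rw [ArithmeticFunction.LSeries_mul', LSeries_aX p s]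
  · congr 1
    exact ArithmeticFunction.LSeries_zeta_eq_riemannZeta hs'
  · exact ArithmeticFunction.LSeriesSummable_zeta_iff.mpr hs'
  · exact DirichletCharacter.LSeriesSummable_of_one_lt_re (qc p) hs'

theorem residue_eq {p : ℕ} [hp : Fact p.Prime] {K : Type*} [Field K] [NumberField K]
    {q : ℤ} (hq : 4 * q - 1 = p) (hp8 : p % 8 = 7) {w : NumberField.RingOfIntegers K}
    (h : QB q w) (h2 : Module.finrank ℤ (NumberField.RingOfIntegers K) = 2) :
    NumberField.dedekindZeta_residue K = L1 p := by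
  have h1 := NumberField.tendsto_sub_one_mul_dedekindZeta_nhdsGT K
  have h3 : Tendsto (fun s : ℝ => ((s : ℂ) - 1) * riemannZeta s) (𝓝[>] 1) (𝓝 1) := by
    have h4 : Tendsto (fun s : ℝ => (s : ℂ)) (𝓝[>] 1) (𝓝[≠] 1) := by
      rw [tendsto_nhdsWithin_iff]
      constructor
      · have := (Complex.continuous_ofReal.tendsto 1)
        rw [Complex.ofReal_one] at this
        exact this.mono_left nhdsWithin_le_nhds
      · filter_upwards [self_mem_nhdsWithin] with s hs
        simp only [Set.mem_compl_iff, Set.mem_singleton_iff]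
        intro h
        have : s = 1 := by exact_mod_cast h
        exact (ne_of_gt hs) this
    exact riemannZeta_residue_one.comp h4
  have h4 : Tendsto (fun s : ℝ => ((Fs p s : ℝ) : ℂ)) (𝓝[>] 1) (𝓝 ((L1 p : ℝ) : ℂ)) :=
    (Complex.continuous_ofReal.tendsto _).comp (tendsto_Fs p (by omega))
  have h5 := h3.mul h4
  rw [one_mul] at h5
  have h6 : Tendsto (fun s : ℝ => ((s : ℂ) - 1) * NumberField.dedekindZeta K s) (𝓝[>] 1)
      (𝓝 ((L1 p : ℝ) : ℂ)) := by
    refine h5.congr' ?_
    filter_upwards [self_mem_nhdsWithin] with s hs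
    rw [dedekind_eq hq hp8 h h2 hs, mul_assoc]
  have h7 := tendsto_nhds_unique h1 h6
  exact_mod_cast h7

end Pool.Agent.Helper88.CN
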